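import Mathlib

set_option autoImplicit false

/-!
# Expanding fronts: Lipschitz maps and volumes, nearest points of convex sets
-/

open MeasureTheory Set Metric
open scoped ENNReal NNReal Pointwise RealInnerProductSpace

namespace Pool.Agent.H65.EF

section lip

variable {E : Type*} [NormedAddCommGroup E] [NormedSpace ℝ E] [FiniteDimensional ℝ E]
  [MeasurableSpace E] [BorelSpace E] (μ : Measure E) [μ.IsAddHaarMeasure]

theorem exists_smul_hausdorff : ∃ c : ℝ≥0, c ≠ 0 ∧ μ = c • (Measure.hausdorffMeasure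
    (Module.finrank ℝ E) : Measure E) := by
  refine ⟨Measure.addHaarScalarFactor μ (Measure.hausdorffMeasure (Module.finrank ℝ E)), ?_,
    Measure.isAddLeftInvariant_eq_smul _ _⟩
  exact (Measure.addHaarScalarFactor_pos_of_isAddHaarMeasure _ _).ne'

/-- A `C`-Lipschitz map increases volumes at most by `C ^ n`. -/
theorem vol_image_le {C : ℝ≥0} {f : E → E} {s : Set E} (h : LipschitzOnWith C f s) :
    μ (f '' s) ≤ (C : ℝ≥0∞) ^ (Module.finrank ℝ E) * μ s := by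
  obtain ⟨c, hc, e⟩ := exists_smul_hausdorff μ
  rw [e]
  simp only [Measure.smul_apply]
  have := h.hausdorffMeasure_image_le (d := (Module.finrank ℝ E : ℝ)) (by positivity)
  rw [ENNReal.rpow_natCast] at this
  calc c • Measure.hausdorffMeasure (Module.finrank ℝ E : ℝ) (f '' s)
      ≤ c • ((C : ℝ≥0∞) ^ (Module.finrank ℝ E) *
        Measure.hausdorffMeasure (Module.finrank ℝ E : ℝ) s) := by gcongr
    _ = _ := by
      simp only [ENNReal.smul_def, smul_eq_mul]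
      ring

/-- An expanding map does not decrease volumes. -/
theorem le_vol_image {f : E → E} {s : Set E} (h : ∀ x ∈ s, ∀ y ∈ s, dist x y ≤ dist (f x) (f y)) :
    μ s ≤ μ (f '' s) := by
  classical
  by_cases hs : s.Nonempty
  swap
  · rw [not_nonempty_iff_eq_empty.1 hs]; simp
  obtain ⟨x0, hx0⟩ := hs
  have inj : InjOn f s := by
    intro x hx y hy e
    have := h x hx y hy
    rw [e, dist_self] at this
    exact dist_le_zero.1 this
  haveI : Nonempty E := ⟨x0⟩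
  set g : E → E := Function.invFunOn f s
  have hg : ∀ x ∈ s, g (f x) = x := fun x hx => inj.leftInvOn_invFunOn hx
  have hL : LipschitzOnWith 1 g (f '' s) := by
    refine LipschitzOnWith.of_dist_le_mul ?_
    rintro _ ⟨x, hx, rfl⟩ _ ⟨y, hy, rfl⟩
    rw [hg x hx, hg y hy]
    simpa using h x hx y hy
  have himg : g '' (f '' s) = s := by
    ext z
    constructor
    · rintro ⟨_, ⟨x, hx, rfl⟩, rfl⟩
      rwa [hg x hx]
    · intro hz
      exact ⟨f z, ⟨z, hz, rfl⟩, hg z hz⟩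
  have := vol_image_le μ hL
  rw [himg] at this
  simpa using this

end lip

section proj

variable {V : Type*} [NormedAddCommGroup V] [InnerProductSpace ℝ V]

/-- `w` is an outer normal of `Z` at `p ∈ Z`. -/
def Nor (Z : Set V) (p w : V) : Prop := p ∈ Z ∧ ∀ z ∈ Z, ⟪w, z - p⟫ ≤ 0

theorem Nor.smul {Z : Set V} {p w : V} (h : Nor Z p w) {c : ℝ} (hc : 0 ≤ c) : Nor Z p (c • w) := by
  refine ⟨h.1, fun z hz => ?_⟩
  rw [real_inner_smul_left]
  exact mul_nonpos_of_nonneg_of_nonpos hc (h.2 z hz)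

theorem Nor.mono {Z : Set V} {p w p' w' : V} (h : Nor Z p w) (h' : Nor Z p' w') :
    0 ≤ ⟪p - p', w - w'⟫ := by
  have h1 := h.2 p' h'.1
  have h2 := h'.2 p h.1
  have e : ⟪p - p', w - w'⟫ = -⟪w, p' - p⟫ - ⟪w', p - p'⟫ := by
    simp only [inner_sub_left, inner_sub_right]
    rw [real_inner_comm w p, real_inner_comm w p', real_inner_comm w' p, real_inner_comm w' p']
    ring
  rw [e]; linarith

theorem Nor.dist_sq {Z : Set V} {p w p' w' : V} (h : Nor Z p w) (h' : Nor Z p' w') :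
    ‖p - p'‖ ^ 2 + ‖w - w'‖ ^ 2 ≤ ‖(p + w) - (p' + w')‖ ^ 2 := by
  have e : (p + w) - (p' + w') = (p - p') + (w - w') := by abel
  rw [e, norm_add_sq_real]
  have := h.mono h'
  linarith

theorem Nor.norm_w_le {Z : Set V} {p w p' w' : V} (h : Nor Z p w) (h' : Nor Z p' w') :
    ‖w - w'‖ ≤ ‖(p + w) - (p' + w')‖ := by
  have := h.dist_sq h'
  refine le_of_sq_le_sq ?_ (norm_nonneg _)
  nlinarith [sq_nonneg ‖p - p'‖]

theorem Nor.infDist {Z : Set V} {p w : V} (h : Nor Z p w) : Metric.infDist (p + w) Z = ‖w‖ := by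
  have hne : Z.Nonempty := ⟨p, h.1⟩
  apply le_antisymm
  · have := Metric.infDist_le_dist_of_mem (x := p + w) h.1
    rwa [dist_eq_norm, add_sub_cancel_left] at this
  · rw [Metric.infDist_eq_iInf]
    haveI : Nonempty Z := hne.to_subtype
    refine le_ciInf ?_
    rintro ⟨z, hz⟩
    rw [dist_eq_norm]
    have e : p + w - z = (p - z) + w := by abel
    refine le_of_sq_le_sq ?_ (norm_nonneg _)
    change ‖w‖ ^ 2 ≤ ‖p + w - z‖ ^ 2
    rw [e, norm_add_sq_real]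
    have h2 := h.2 z hz
    have e2 : ⟪p - z, w⟫ = -⟪w, z - p⟫ := by
      rw [real_inner_comm, ← inner_neg_right, neg_sub]
    nlinarith [sq_nonneg ‖p - z‖]

theorem exists_nor {Z : Set V} (hc : IsCompact Z) (hv : Convex ℝ Z) (hne : Z.Nonempty) (y : V) :
    ∃ p w : V, Nor Z p w ∧ y = p + w := by
  obtain ⟨p, hp, hd⟩ := hc.exists_infDist_eq_dist hne y
  refine ⟨p, y - p, ⟨hp, ?_⟩, by abel⟩
  have := (norm_eq_iInf_iff_real_inner_le_zero hv (u := y) hp).1 ?_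
  · exact this
  · rw [← dist_eq_norm, ← hd, Metric.infDist_eq_iInf]
    simp only [dist_eq_norm]

/-- the unit normal -/
theorem nor_unit_lip {Z : Set V} {p w p' w' : V} (h : Nor Z p w) (h' : Nor Z p' w') {ρ : ℝ}
    (hρ : 0 < ρ) (hw : ρ ≤ ‖w‖) (hw' : ρ ≤ ‖w'‖) :
    ‖(‖w‖⁻¹ • w) - (‖w'‖⁻¹ • w')‖ ≤ 2 / ρ * ‖(p + w) - (p' + w')‖ := by
  have hn : 0 < ‖w‖ := hρ.trans_le hw
  have hn' : 0 < ‖w'‖ := hρ.trans_le hw'
  have e : (‖w‖⁻¹ • w) - (‖w'‖⁻¹ • w') = ‖w‖⁻¹ • (w - w') + (‖w‖⁻¹ - ‖w'‖⁻¹) • w' := by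
    rw [smul_sub, sub_smul]; abel
  have h1 : ‖‖w‖⁻¹ • (w - w')‖ ≤ 1 / ρ * ‖w - w'‖ := by
    rw [norm_smul, norm_inv, norm_norm, one_div]
    gcongr
  have h2 : ‖(‖w‖⁻¹ - ‖w'‖⁻¹) • w'‖ ≤ 1 / ρ * ‖w - w'‖ := by
    rw [norm_smul]
    have : ‖w‖⁻¹ - ‖w'‖⁻¹ = (‖w'‖ - ‖w‖) / (‖w‖ * ‖w'‖) := by field_simp
    rw [this, Real.norm_eq_abs, abs_div, abs_of_pos (mul_pos hn hn')]
    have h3 : |‖w'‖ - ‖w‖| ≤ ‖w - w'‖ := by
      rw [abs_sub_comm]; exact abs_norm_sub_norm_le w w'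
    calc |‖w'‖ - ‖w‖| / (‖w‖ * ‖w'‖) * ‖w'‖ = |‖w'‖ - ‖w‖| / ‖w‖ := by field_simp
      _ ≤ ‖w - w'‖ / ρ := by gcongr
      _ = _ := by ring
  rw [e]
  calc ‖‖w‖⁻¹ • (w - w') + (‖w‖⁻¹ - ‖w'‖⁻¹) • w'‖ ≤ 1 / ρ * ‖w - w'‖ + 1 / ρ * ‖w - w'‖ :=
        (norm_add_le _ _).trans (add_le_add h1 h2)
    _ = 2 / ρ * ‖w - w'‖ := by ring
    _ ≤ _ := by
      gcongr
      exact h.norm_w_le h'

end proj

end Pool.Agent.H65.EF
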