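import Pool.Agent.H65.EF.Unif

set_option autoImplicit false

/-!
# Expanding fronts: the main estimate, for uniform data
-/

open MeasureTheory Set Metric
open scoped ENNReal NNReal Pointwise RealInnerProductSpace

namespace Pool.Agent.H65.EF

variable {V : Type*} [NormedAddCommGroup V] [InnerProductSpace ℝ V] [FiniteDimensional ℝ V]
  [MeasurableSpace V] [BorelSpace V] (μ : Measure V) [μ.IsAddHaarMeasure]

/-- uniform data -/
structure Unif (M q₁ q₂ : ℝ) (U : Set ℝ) (Z : ℝ → Set V) (h : ℝ → ℝ) (D : ℝ → Set V)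
    (a : V → V) : Prop where
  one_le : 1 ≤ M
  lt : q₁ < q₂
  u_mem : ∀ u ∈ U, 1 / M ≤ u ∧ u ≤ M
  h_mem : ∀ u ∈ U, 1 / M ≤ q₁ - h u ∧ q₂ - h u ≤ M
  body : ∀ u ∈ U, Body M (Z u)
  norm_eq : ∀ u ∈ U, ∀ v ∈ D u, ‖v‖ = u
  nor : ∀ u ∈ U, ∀ v ∈ D u, Nor (Z u) (a v) v
  big : ∀ u ∈ U, ENNReal.ofReal (1 / M) ≤ μ (cone (D u))

/-- volume of a union of balls of one scale -/
theorem vol_balls_le {X : Type*} [NormedAddCommGroup X] [NormedSpace ℝ X] [FiniteDimensional ℝ X]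
    [MeasurableSpace X] [BorelSpace X] (ν : Measure X) [ν.IsAddHaarMeasure] {s δ : ℝ} (hs : 0 < s)
    (hsn : s < Module.finrank ℝ X) (hδ : 0 < δ) {x : ℕ → X} {r : ℕ → ℝ}
    (hr : ∀ i, 0 < r i) (hsum : ∑' i, ENNReal.ofReal (r i ^ s) ≤ 1) :
    ν (⋃ i ∈ {i | δ / 2 < r i}, closedBall (x i) (2 * δ)) ≤
      ENNReal.ofReal (4 ^ Module.finrank ℝ X * (ν (closedBall 0 1)).toReal *
        δ ^ ((Module.finrank ℝ X : ℝ) - s)) := by
  classical
  set n := Module.finrank ℝ X with hn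
  set V₁ := (ν (closedBall 0 1)).toReal with hV₁
  have hV₁0 : 0 ≤ V₁ := ENNReal.toReal_nonneg
  have hV₁t : ν (closedBall 0 1) = ENNReal.ofReal V₁ := by
    rw [hV₁, ENNReal.ofReal_toReal (isCompact_closedBall (0 : X) _).measure_lt_top.ne]
  have hδη : 0 ≤ δ ^ ((n : ℝ) - s) := Real.rpow_nonneg hδ.le _
  calc ν (⋃ i ∈ {i | δ / 2 < r i}, closedBall (x i) (2 * δ))
      ≤ ∑' i, ENNReal.ofReal (4 ^ n * V₁ * δ ^ ((n : ℝ) - s)) * ENNReal.ofReal (r i ^ s) := by
        refine (measure_iUnion_le _).trans (ENNReal.tsum_le_tsum fun i => ?_)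
        by_cases hi : δ / 2 < r i
        swap
        · have : (⋃ (_ : i ∈ {i | δ / 2 < r i}), closedBall (x i) (2 * δ)) = ∅ := by
            simp only [iUnion_eq_empty]
            intro h; exact absurd h hi
          rw [this, measure_empty]
          exact zero_le
        have : (⋃ (_ : i ∈ {i | δ / 2 < r i}), closedBall (x i) (2 * δ)) ⊆
            closedBall (x i) (2 * δ) := iUnion_subset fun _ => le_rfl
        refine (measure_mono this).trans ?_
        rw [Measure.addHaar_closedBall' ν _ (by positivity), hV₁t, ← hn,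
          ← ENNReal.ofReal_mul (by positivity),
          ← ENNReal.ofReal_mul (by positivity)]
        refine ENNReal.ofReal_le_ofReal ?_
        have h1 : δ ^ s ≤ (2 * r i) ^ s := Real.rpow_le_rpow hδ.le (by linarith) hs.le
        have h2 : (2 * r i) ^ s ≤ 2 ^ n * r i ^ s := by
          rw [Real.mul_rpow (by norm_num) (hr i).le]
          have : (2:ℝ) ^ s ≤ 2 ^ n := by
            rw [← Real.rpow_natCast]
            exact Real.rpow_le_rpow_of_exponent_le (by norm_num) hsn.le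
          have := Real.rpow_nonneg (hr i).le s
          gcongr
        have h3 : δ ^ n = δ ^ ((n : ℝ) - s) * δ ^ s := by
          rw [← Real.rpow_add hδ, sub_add_cancel, Real.rpow_natCast]
        calc (2 * δ) ^ n * V₁ = 2 ^ n * V₁ * δ ^ ((n : ℝ) - s) * δ ^ s := by
              rw [mul_pow, h3]; ring
          _ ≤ 2 ^ n * V₁ * δ ^ ((n : ℝ) - s) * (2 ^ n * r i ^ s) := by
              have := h1.trans h2
              gcongr
          _ = (2 ^ n * 2 ^ n) * V₁ * δ ^ ((n : ℝ) - s) * r i ^ s := by ring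
          _ = _ := by
              rw [← mul_pow]; norm_num
    _ = ENNReal.ofReal (4 ^ n * V₁ * δ ^ ((n : ℝ) - s)) * ∑' i, ENNReal.ofReal (r i ^ s) :=
        ENNReal.tsum_mul_left
    _ ≤ ENNReal.ofReal (4 ^ n * V₁ * δ ^ ((n : ℝ) - s)) * 1 := by gcongr
    _ = _ := mul_one _

theorem exists_big_piece {U : Set ℝ} (hU0 : volume U ≠ 0) (hUt : volume U ≠ ∞) {β : ℕ → ℝ}
    (hβ : ∑' j, ENNReal.ofReal (β j) ≤ 1 / 2) {P : ℕ → ℝ → Prop} (hP : ∀ u ∈ U, ∃ j, P j u) :
    ∃ j, ENNReal.ofReal (β j) * volume U ≤ volume {u ∈ U | P j u} := by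
  by_contra hcon
  push Not at hcon
  have h1 : U ⊆ ⋃ j, {u ∈ U | P j u} := by
    intro u hu
    obtain ⟨j, hj⟩ := hP u hu
    exact mem_iUnion.2 ⟨j, hu, hj⟩
  have h2 : volume U ≤ volume U * (1 / 2) := by
    calc volume U ≤ ∑' j, volume {u ∈ U | P j u} := (measure_mono h1).trans (measure_iUnion_le _)
      _ ≤ ∑' j, ENNReal.ofReal (β j) * volume U := ENNReal.tsum_le_tsum fun j => (hcon j).le
      _ = volume U * ∑' j, ENNReal.ofReal (β j) := by rw [ENNReal.tsum_mul_right, mul_comm]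
      _ ≤ _ := by gcongr
  have h3 := ENNReal.half_lt_self hU0 hUt
  rw [div_eq_mul_inv, ← one_div] at h3
  exact absurd h2 (not_le.2 h3)

theorem core (hk : 1 ≤ Module.finrank ℝ V) {M q₁ q₂ : ℝ} {U : Set ℝ} {Z : ℝ → Set V}
    {h : ℝ → ℝ} {D : ℝ → Set V} {a : V → V} (H : Unif μ M q₁ q₂ U Z h D a)
    (hU0 : volume U ≠ 0) {K : Set (V × ℝ)}
    (hK : ∀ u ∈ U, ∀ v ∈ D u, ∀ t ∈ Icc q₁ q₂, (a v + (t - h u) • v, t) ∈ K) {s : ℝ} (hs : 0 < s)
    (hs' : s < Module.finrank ℝ V + 1) : Measure.hausdorffMeasure s K ≠ 0 := by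
  classical
  intro h0
  have hM := H.one_le
  have hM0 : 0 < M := by linarith
  set k := Module.finrank ℝ V with hkdef
  have hfr : Module.finrank ℝ (V × ℝ) = k + 1 := by
    rw [Module.finrank_prod, Module.finrank_self]
  set ν := μ.prod (volume : Measure ℝ) with hν
  have hUt : volume U ≠ ∞ := by
    refine ne_top_of_le_ne_top (b := volume (Icc (1 / M) M)) ?_ (measure_mono fun u hu =>
      ⟨(H.u_mem u hu).1, (H.u_mem u hu).2⟩)
    rw [Real.volume_Icc]
    exact ENNReal.ofReal_ne_top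
  set m := (volume U).toReal with hm
  have hm0 : 0 < m := ENNReal.toReal_pos hU0 hUt
  have hmU : volume U = ENNReal.ofReal m := by rw [hm, ENNReal.ofReal_toReal hUt]
  set η : ℝ := (k : ℝ) + 1 - s with hη
  have hη0 : 0 < η := by linarith
  set θ : ℝ := η / 8 with hθ
  have hθ0 : 0 < θ := by positivity
  set b : ℝ := (1 / 2) ^ θ with hb
  have hb0 : 0 < b := by positivity
  have hb1 : b < 1 := Real.rpow_lt_one (by norm_num) (by norm_num) hθ0
  set β₀ : ℝ := (1 - b) / 2 with hβ₀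
  have hβ₀0 : 0 < β₀ := by rw [hβ₀]; linarith
  set κ : ℝ := (q₂ - q₁) * ((1 / M) ^ k / M ^ 2) * (1 / M) with hκ
  have hκ0 : 0 < κ := by
    have : 0 < q₂ - q₁ := sub_pos.2 H.lt
    positivity
  set V₁ := (ν (closedBall 0 1)).toReal with hV₁
  have hV₁0 : 0 ≤ V₁ := ENNReal.toReal_nonneg
  have hlog2M : 0 ≤ Real.log (2 * M) := Real.log_nonneg (by linarith)
  set C : ℝ := C3 μ M * (2 * (1 + Real.log (2 * M) + 1 / (2 * θ))) * (4 ^ (k + 1) * V₁) with hC
  have hC3 := C3_nonneg μ hM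
  have hC0 : 0 ≤ C := by positivity
  -- the first scale
  set y : ℝ := min 1 (κ ^ 2 * β₀ ^ 3 * m / (C + 1) / 2) with hy
  have hy0 : 0 < y := lt_min one_pos (by positivity)
  have hy1 : y ≤ 1 := min_le_left _ _
  have hCy : C * y < κ ^ 2 * β₀ ^ 3 * m := by
    have h1 : y ≤ κ ^ 2 * β₀ ^ 3 * m / (C + 1) / 2 := min_le_right _ _
    have h2 : 0 < κ ^ 2 * β₀ ^ 3 * m := by positivity
    calc C * y ≤ (C + 1) * (κ ^ 2 * β₀ ^ 3 * m / (C + 1) / 2) := by gcongr; linarith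
      _ = κ ^ 2 * β₀ ^ 3 * m / 2 := by field_simp
      _ < _ := by linarith
  set δ₀ : ℝ := min (1 / (2 * M ^ 2)) (y ^ (1 / θ)) with hδ₀
  have hδ₀0 : 0 < δ₀ := lt_min (by positivity) (by positivity)
  have hδ₀M : δ₀ ≤ 1 / (2 * M ^ 2) := min_le_left _ _
  have hδ₀y : δ₀ ^ θ ≤ y := by
    calc δ₀ ^ θ ≤ (y ^ (1 / θ)) ^ θ := Real.rpow_le_rpow hδ₀0.le (min_le_right _ _) hθ0.le
      _ = y := by rw [← Real.rpow_mul hy0.le, one_div_mul_cancel hθ0.ne', Real.rpow_one]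
  have hδ₀1 : δ₀ ≤ 1 := by
    refine hδ₀M.trans ?_
    rw [div_le_one (by positivity)]
    nlinarith
  set δ : ℕ → ℝ := fun j => δ₀ * (1 / 2) ^ j with hδ
  have hδ0 : ∀ j, 0 < δ j := fun j => by simp only [hδ]; positivity
  have hδle : ∀ j, δ j ≤ δ₀ := fun j => by
    simp only [hδ]
    calc δ₀ * (1 / 2) ^ j ≤ δ₀ * 1 := by
          gcongr
          exact pow_le_one₀ (by norm_num) (by norm_num)
      _ = δ₀ := mul_one _
  set β : ℕ → ℝ := fun j => β₀ * b ^ j with hβ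
  have hβ0 : ∀ j, 0 < β j := fun j => by simp only [hβ]; positivity
  have hβsum : ∑' j, ENNReal.ofReal (β j) ≤ 1 / 2 := by
    rw [← ENNReal.ofReal_tsum_of_nonneg (fun j => (hβ0 j).le)
      ((summable_geometric_of_lt_one hb0.le hb1).mul_left _)]
    simp only [hβ]
    rw [tsum_mul_left, tsum_geometric_of_lt_one hb0.le hb1]
    have : β₀ * (1 - b)⁻¹ = 1 / 2 := by
      have : 1 - b ≠ 0 := by linarith
      rw [hβ₀]; field_simp
    rw [this, ENNReal.ofReal_div_of_pos (by norm_num)]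
    simp
  have hβδ : ∀ j, β₀ * (δ j) ^ θ ≤ β j := by
    intro j
    simp only [hβ, hδ]
    have h1 : (δ₀ * (1 / 2) ^ j) ^ θ = δ₀ ^ θ * b ^ j := by
      rw [Real.mul_rpow hδ₀0.le (by positivity), hb, ← Real.rpow_natCast ((1 / 2 : ℝ)) j,
        ← Real.rpow_mul (by norm_num), mul_comm (j:ℝ) θ, Real.rpow_mul (by norm_num),
        Real.rpow_natCast]
    have h2 : δ₀ ^ θ ≤ 1 := hδ₀y.trans hy1
    rw [h1]
    gcongr
    calc δ₀ ^ θ * b ^ j ≤ 1 * b ^ j := by gcongr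
      _ = _ := one_mul _
  -- the cover
  obtain ⟨x, r, hr, hcovK, hsum⟩ := exists_cover hs h0 hδ₀0
  set Q₀ : ℕ → Set (V × ℝ) := fun j => ⋃ i ∈ {i | δ j / 2 < r i ∧ r i ≤ δ j},
    closedBall (x i) (r i) with hQ₀
  set Q : ℕ → Set (V × ℝ) := fun j => ⋃ i ∈ {i | δ j / 2 < r i}, closedBall (x i) (2 * δ j) with hQ
  have hQm : ∀ j, MeasurableSet (Q j) := fun j =>
    MeasurableSet.biUnion (to_countable _) fun i _ => isClosed_closedBall.measurableSet
  have hQthick : ∀ j, ∀ y y' : V, ∀ t : ℝ, (y, t) ∈ Q₀ j → dist y' y ≤ δ j → (y', t) ∈ Q j := by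
    intro j y y' t hy hyy
    obtain ⟨i, hi, hyi⟩ := mem_iUnion₂.1 hy
    refine mem_iUnion₂.2 ⟨i, hi.1, ?_⟩
    rw [mem_closedBall] at hyi ⊢
    have h1 : dist ((y', t) : V × ℝ) (y, t) ≤ δ j := by
      rw [Prod.dist_eq]
      simp only [dist_self]
      exact max_le hyy (hδ0 j).le
    have h2 := dist_triangle ((y', t) : V × ℝ) (y, t) (x i)
    have h3 := hi.2
    linarith
  have hcov : ∀ z ∈ K, ∃ j, z ∈ Q₀ j := by
    intro z hz
    obtain ⟨i, hi⟩ := mem_iUnion.1 (hcovK hz)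
    have h1 : 0 < r i / δ₀ := div_pos (hr i).1 hδ₀0
    have h2 : r i / δ₀ ≤ 1 := by rw [div_le_one hδ₀0]; exact (hr i).2
    obtain ⟨j, hj1, hj2⟩ := exists_nat_pow_near_of_lt_one h1 h2 (by norm_num : (0:ℝ) < 1 / 2)
      (by norm_num)
    rw [lt_div_iff₀ hδ₀0] at hj1
    rw [div_le_iff₀ hδ₀0] at hj2
    refine ⟨j, mem_iUnion₂.2 ⟨i, ⟨?_, ?_⟩, hi⟩⟩
    · simp only [hδ]
      rw [pow_succ] at hj1
      linarith
    · simp only [hδ]
      linarith
  -- the lower bound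
  have hlow : ∀ u ∈ U, ∃ j, ENNReal.ofReal (κ * β j * δ j) ≤
      ν (front q₁ q₂ (δ j) (Z u) u (h u) ∩ Q j) := by
    intro u hu
    have hu1 := H.u_mem u hu
    have hh1 := H.h_mem u hu
    have h1M : 0 < 1 / M := by positivity
    have hu0 : 0 < u := lt_of_lt_of_le h1M hu1.1
    have hB : u * (q₂ - h u) ≤ M ^ 2 := by
      rw [pow_two]
      exact mul_le_mul hu1.2 hh1.2 (by linarith [hh1.1, H.lt]) hM0.le
    have hbig := H.big u hu
    have hm0 : μ (cone (D u)) ≠ 0 := by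
      intro h00
      rw [h00, nonpos_iff_eq_zero, ENNReal.ofReal_eq_zero] at hbig
      linarith
    obtain ⟨j, hj⟩ := low μ hk hu0 (by linarith [hh1.1] : h u < q₁) H.lt hδ0
      (B := M ^ 2) (fun j => (hδle j).trans (hδ₀1.trans (by nlinarith))) hB (H.norm_eq u hu)
      (H.nor u hu) hβ0 hβsum hm0 hQm hQthick (fun v hv t ht => hcov _ (hK u hu v hv t ht))
    refine ⟨j, le_trans ?_ hj⟩
    have hqq : 0 < q₂ - q₁ := sub_pos.2 H.lt
    have hβj := hβ0 j
    have hδj := hδ0 j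
    calc ENNReal.ofReal (κ * β j * δ j)
        = ENNReal.ofReal ((q₂ - q₁) * ((1 / M) ^ k * (δ j / M ^ 2)) * β j) *
          ENNReal.ofReal (1 / M) := by
          rw [← ENNReal.ofReal_mul (by positivity)]
          congr 1
          rw [hκ]; ring
      _ ≤ ENNReal.ofReal ((q₂ - q₁) * ((q₁ - h u) ^ k * (δ j / M ^ 2)) * β j) *
          μ (cone (D u)) := by
          have := hh1.1
          gcongr
  obtain ⟨j, hj⟩ := exists_big_piece hU0 hUt hβsum hlow
  -- the main inequality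
  have hδj := hδ0 j
  have hβj := hβ0 j
  have hmain := one_scale μ hM H.lt hδj ((hδle j).trans hδ₀M)
    (U := {u ∈ U | ENNReal.ofReal (κ * β j * δ j) ≤
      ν (front q₁ q₂ (δ j) (Z u) u (h u) ∩ Q j)})
    (fun u hu => H.u_mem u hu.1) (fun u hu => H.h_mem u hu.1) (fun u hu => H.body u hu.1)
    (hQm j) (c := κ * β j) (by positivity) (fun u hu => hu.2)
  have hvolQ : ν (Q j) ≤ ENNReal.ofReal (4 ^ (k + 1) * V₁ * (δ j) ^ η) := by
    have := vol_balls_le ν (s := s) (x := x) (r := r) hs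
      (by rw [hfr]; push_cast; exact hs') hδj (fun i => (hr i).1) hsum
    rw [hfr] at this
    push_cast at this
    exact this
  set X := (δ j) ^ θ with hX
  have hX0 : 0 < X := Real.rpow_pos_of_pos hδj _
  have hXy : X ≤ y := (Real.rpow_le_rpow hδj.le (hδle j) hθ0.le).trans hδ₀y
  have hXη : (δ j) ^ η = X ^ 8 := by
    rw [hX, ← Real.rpow_natCast, ← Real.rpow_mul hδj.le, hθ]
    congr 1
    push_cast; ring
  have hXlog : 1 + Real.log (M / δ j + 1) ≤ (1 + Real.log (2 * M) + 1 / (2 * θ)) / X ^ 2 := by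
    have h1 : M / δ j + 1 ≤ 2 * M * (1 / δ j) := by
      have : 1 ≤ M / δ j := by
        rw [le_div_iff₀ hδj]
        have := (hδle j).trans hδ₀1
        linarith
      rw [mul_one_div, mul_div_assoc]
      linarith
    have h2 : Real.log (M / δ j + 1) ≤ Real.log (2 * M) + Real.log (1 / δ j) := by
      rw [← Real.log_mul (by positivity) (by positivity)]
      exact Real.log_le_log (by positivity) h1
    have h3 : Real.log (1 / δ j) ≤ (1 / δ j) ^ (2 * θ) / (2 * θ) :=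
      Real.log_le_rpow_div (by positivity) (by positivity)
    have h4 : (1 / δ j) ^ (2 * θ) = 1 / X ^ 2 := by
      rw [Real.div_rpow (by norm_num) hδj.le, Real.one_rpow, hX, ← Real.rpow_natCast,
        ← Real.rpow_mul hδj.le]
      congr 2
      push_cast; ring
    have h5 : 1 ≤ 1 / X ^ 2 := by
      rw [le_div_iff₀ (by positivity), one_mul]
      exact pow_le_one₀ hX0.le (hXy.trans hy1)
    rw [h4] at h3
    calc 1 + Real.log (M / δ j + 1) ≤ (1 + Real.log (2 * M)) * 1 + 1 / X ^ 2 / (2 * θ) := by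
          linarith
      _ ≤ (1 + Real.log (2 * M)) * (1 / X ^ 2) + 1 / X ^ 2 / (2 * θ) := by gcongr
      _ = _ := by ring
  have hlog0 : 0 ≤ 1 + Real.log (M / δ j + 1) := by
    have : 0 ≤ Real.log (M / δ j + 1) := Real.log_nonneg (by
      have : 0 ≤ M / δ j := by positivity
      linarith)
    linarith
  have h1 : ENNReal.ofReal ((κ * β j) ^ 2) * (ENNReal.ofReal (β j) * ENNReal.ofReal m) ≤
      ENNReal.ofReal (C3 μ M * (2 * (1 + Real.log (M / δ j + 1)))) *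
        ENNReal.ofReal (4 ^ (k + 1) * V₁ * (δ j) ^ η) := by
    rw [← hmU]
    calc _ ≤ ENNReal.ofReal ((κ * β j) ^ 2) * volume {u ∈ U | ENNReal.ofReal (κ * β j * δ j) ≤
          ν (front q₁ q₂ (δ j) (Z u) u (h u) ∩ Q j)} := by gcongr
      _ ≤ _ := hmain
      _ ≤ _ := by gcongr
  rw [← ENNReal.ofReal_mul (by positivity), ← ENNReal.ofReal_mul (by positivity),
    ← ENNReal.ofReal_mul (by positivity), ENNReal.ofReal_le_ofReal_iff (by positivity)] at h1
  have h2 : κ ^ 2 * β₀ ^ 3 * m * X ^ 3 ≤ C * X ^ 6 := by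
    have h3 := hβδ j
    calc κ ^ 2 * β₀ ^ 3 * m * X ^ 3 = κ ^ 2 * (β₀ * X) ^ 3 * m := by ring
      _ ≤ κ ^ 2 * (β j) ^ 3 * m := by gcongr
      _ = (κ * β j) ^ 2 * (β j * m) := by ring
      _ ≤ _ := h1
      _ ≤ C3 μ M * (2 * ((1 + Real.log (2 * M) + 1 / (2 * θ)) / X ^ 2)) *
          (4 ^ (k + 1) * V₁ * (δ j) ^ η) := by gcongr
      _ = C * X ^ 6 := by
          rw [hXη, hC]
          field_simp
  have h3 : κ ^ 2 * β₀ ^ 3 * m ≤ C * X ^ 3 := by
    have : κ ^ 2 * β₀ ^ 3 * m * X ^ 3 ≤ (C * X ^ 3) * X ^ 3 := by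
      calc _ ≤ _ := h2
        _ = _ := by ring
    exact le_of_mul_le_mul_right this (by positivity)
  have h4 : C * X ^ 3 ≤ C * y := by
    have : X ^ 3 ≤ y := by
      calc X ^ 3 = X * X ^ 2 := by ring
        _ ≤ y * 1 := by
          gcongr
          exact pow_le_one₀ hX0.le (hXy.trans hy1)
        _ = y := mul_one _
    gcongr
  linarith

end Pool.Agent.H65.EF
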