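import Mathlib

set_option autoImplicit false

/-!
# Expanding fronts: coverings by balls of sets of Hausdorff measure zero
-/

open MeasureTheory Set Metric
open scoped ENNReal NNReal

namespace Pool.Agent.H65.EF

theorem exists_cover {X : Type*} [MetricSpace X] [MeasurableSpace X] [BorelSpace X]
    [Nonempty X] {K : Set X} {s : ℝ} (hs : 0 < s)
    (hK : Measure.hausdorffMeasure s K = 0) {ε : ℝ} (hε : 0 < ε) :
    ∃ (x : ℕ → X) (r : ℕ → ℝ), (∀ i, 0 < r i ∧ r i ≤ ε) ∧ K ⊆ ⋃ i, closedBall (x i) (r i) ∧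
      ∑' i, ENNReal.ofReal (r i ^ s) ≤ 1 := by
  classical
  rw [Measure.hausdorffMeasure_apply] at hK
  have h1 : (⨅ (t : ℕ → Set X) (_ : K ⊆ ⋃ n, t n) (_ : ∀ n, ediam (t n) ≤ ENNReal.ofReal ε),
      ∑' n, ⨆ _ : (t n).Nonempty, ediam (t n) ^ s) = 0 := by
    have h0 : (0 : ℝ≥0∞) < ENNReal.ofReal ε := by rwa [ENNReal.ofReal_pos]
    refine le_antisymm ?_ (zero_le)
    rw [← hK]
    exact le_iSup₂_of_le (ENNReal.ofReal ε) h0 le_rfl
  have h2 : (⨅ (t : ℕ → Set X) (_ : K ⊆ ⋃ n, t n) (_ : ∀ n, ediam (t n) ≤ ENNReal.ofReal ε),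
      ∑' n, ⨆ _ : (t n).Nonempty, ediam (t n) ^ s) < 1 / 2 := by
    rw [h1]; simp
  simp only [iInf_lt_iff] at h2
  obtain ⟨t, htK, htd, hsum⟩ := h2
  -- the extra radii
  set e : ℕ → ℝ := fun n => min ε ((1 / 2 * (1 / 2 * (1 / 2) ^ n)) ^ (1 / s)) with he
  have he0 : ∀ n, 0 < e n := fun n => lt_min hε (by positivity)
  have hes : ∀ n, (e n) ^ s ≤ 1 / 2 * (1 / 2 * (1 / 2) ^ n) := by
    intro n
    calc (e n) ^ s ≤ (((1 / 2 * (1 / 2 * (1 / 2) ^ n) : ℝ)) ^ (1 / s)) ^ s :=
          Real.rpow_le_rpow (he0 n).le (min_le_right _ _) hs.le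
      _ = _ := by
          rw [← Real.rpow_mul (by positivity), one_div_mul_cancel hs.ne', Real.rpow_one]
  set x : ℕ → X := fun n => if h : (t n).Nonempty then h.choose else Classical.arbitrary X with hx
  set d : ℕ → ℝ := fun n => if (t n).Nonempty then (ediam (t n)).toReal else 0 with hd
  have hd0 : ∀ n, 0 ≤ d n := by
    intro n; simp only [hd]; split_ifs
    · exact ENNReal.toReal_nonneg
    · exact le_rfl
  have hdε : ∀ n, d n ≤ ε := by
    intro n; simp only [hd]; split_ifs
    · exact ENNReal.toReal_le_of_le_ofReal hε.le (htd n)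
    · exact hε.le
  refine ⟨x, fun n => max (d n) (e n), fun n => ⟨lt_max_of_lt_right (he0 n),
    max_le (hdε n) (min_le_left _ _)⟩, ?_, ?_⟩
  · intro y hy
    obtain ⟨n, hn⟩ := mem_iUnion.1 (htK hy)
    refine mem_iUnion.2 ⟨n, ?_⟩
    have hne : (t n).Nonempty := ⟨y, hn⟩
    rw [mem_closedBall]
    refine le_trans ?_ (le_max_left _ _)
    have hxn : x n ∈ t n := by simp only [hx]; rw [dif_pos hne]; exact hne.choose_spec
    have hdn : d n = (ediam (t n)).toReal := by simp only [hd]; rw [if_pos hne]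
    rw [hdn, dist_edist]
    refine ENNReal.toReal_mono ?_ (edist_le_ediam_of_mem hn hxn)
    exact ne_top_of_le_ne_top ENNReal.ofReal_ne_top (htd n)
  · have hterm : ∀ n, ENNReal.ofReal ((max (d n) (e n)) ^ s) ≤
        (⨆ _ : (t n).Nonempty, ediam (t n) ^ s) +
          ENNReal.ofReal (1 / 2 * (1 / 2 * (1 / 2) ^ n)) := by
      intro n
      rcases le_total (d n) (e n) with h | h
      · rw [max_eq_right h]
        exact le_add_left (ENNReal.ofReal_le_ofReal (hes n))
      · rw [max_eq_left h]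
        refine le_add_right ?_
        by_cases hne : (t n).Nonempty
        · have hdn : d n = (ediam (t n)).toReal := by simp only [hd]; rw [if_pos hne]
          rw [hdn]
          have hfin : ediam (t n) ≠ ∞ := ne_top_of_le_ne_top ENNReal.ofReal_ne_top (htd n)
          rw [← ENNReal.ofReal_rpow_of_nonneg ENNReal.toReal_nonneg hs.le,
            ENNReal.ofReal_toReal hfin]
          exact le_iSup (fun _ : (t n).Nonempty => ediam (t n) ^ s) hne
        · exfalso
          have : d n = 0 := by simp only [hd]; rw [if_neg hne]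
          have h2 := he0 n
          linarith
    calc ∑' n, ENNReal.ofReal ((max (d n) (e n)) ^ s)
        ≤ ∑' n, ((⨆ _ : (t n).Nonempty, ediam (t n) ^ s) +
          ENNReal.ofReal (1 / 2 * (1 / 2 * (1 / 2) ^ n))) := ENNReal.tsum_le_tsum hterm
      _ = ∑' n, (⨆ _ : (t n).Nonempty, ediam (t n) ^ s) +
          ∑' n, ENNReal.ofReal (1 / 2 * (1 / 2 * (1 / 2) ^ n)) := ENNReal.tsum_add
      _ ≤ 1 / 2 + 1 / 2 := by
          refine add_le_add hsum.le ?_
          rw [← ENNReal.ofReal_tsum_of_nonneg (fun n => by positivity)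
            (((summable_geometric_of_lt_one (by norm_num) (by norm_num)).mul_left _).mul_left _),
            tsum_mul_left, tsum_mul_left, tsum_geometric_of_lt_one (by norm_num) (by norm_num)]
          rw [show (1 / 2 * (1 / 2 * (1 - 1 / 2)⁻¹) : ℝ) = 1 / 2 by norm_num,
            ENNReal.ofReal_div_of_pos (by norm_num)]
          simp
      _ = 1 := by rw [← two_mul]; simp [ENNReal.mul_inv_cancel]

end Pool.Agent.H65.EF
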