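import Mathlib

set_option autoImplicit false

/-!
# Expanding fronts: Cauchy-Schwarz for sets, separated points, a harmonic sum
-/

open MeasureTheory Set Metric
open scoped ENNReal NNReal

namespace Pool.Agent.H65.EF

theorem cs_sets {X : Type*} [MeasurableSpace X] (ν : Measure X) {ι : Type*} (s : Finset ι)
    (W : ι → Set X) (hW : ∀ i ∈ s, MeasurableSet (W i)) {Q : Set X} (hQ : MeasurableSet Q) :
    (∑ i ∈ s, ν (W i ∩ Q)) ^ 2 ≤ ν Q * ∑ i ∈ s, ∑ l ∈ s, ν (W i ∩ W l) := by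
  classical
  set f : X → ℝ≥0∞ := fun x => ∑ i ∈ s, (W i).indicator (fun _ => (1:ℝ≥0∞)) x with hf
  set g : X → ℝ≥0∞ := Q.indicator (fun _ => (1:ℝ≥0∞)) with hg
  have hfm : Measurable f := by
    refine Finset.measurable_sum _ fun i hi => ?_
    exact measurable_const.indicator (hW i hi)
  have hgm : Measurable g := measurable_const.indicator hQ
  have h1 : ∫⁻ x, f x * g x ∂ν = ∑ i ∈ s, ν (W i ∩ Q) := by
    have : ∀ x, f x * g x = ∑ i ∈ s, (W i ∩ Q).indicator (fun _ => (1:ℝ≥0∞)) x := by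
      intro x
      simp only [hf, hg, Finset.sum_mul]
      refine Finset.sum_congr rfl fun i _ => ?_
      by_cases h1 : x ∈ W i <;> by_cases h2 : x ∈ Q <;> simp [h1, h2]
    simp_rw [this]
    rw [lintegral_finsetSum]
    · refine Finset.sum_congr rfl fun i hi => ?_
      rw [lintegral_indicator ((hW i hi).inter hQ)]
      simp
    · intro i hi
      exact measurable_const.indicator ((hW i hi).inter hQ)
  have h2 : ∫⁻ x, f x ^ (2:ℝ) ∂ν = ∑ i ∈ s, ∑ l ∈ s, ν (W i ∩ W l) := by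
    have : ∀ x, f x ^ (2:ℝ) =
        ∑ i ∈ s, ∑ l ∈ s, (W i ∩ W l).indicator (fun _ => (1:ℝ≥0∞)) x := by
      intro x
      rw [ENNReal.rpow_two, pow_two]
      simp only [hf, Finset.sum_mul_sum]
      refine Finset.sum_congr rfl fun i _ => Finset.sum_congr rfl fun l _ => ?_
      by_cases h1 : x ∈ W i <;> by_cases h2 : x ∈ W l <;> simp [h1, h2]
    simp_rw [this]
    rw [lintegral_finsetSum]
    · refine Finset.sum_congr rfl fun i hi => ?_
      rw [lintegral_finsetSum]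
      · refine Finset.sum_congr rfl fun l hl => ?_
        rw [lintegral_indicator ((hW i hi).inter (hW l hl))]
        simp
      · intro l hl
        exact measurable_const.indicator ((hW i hi).inter (hW l hl))
    · intro i hi
      refine Finset.measurable_sum _ fun l hl => ?_
      exact measurable_const.indicator ((hW i hi).inter (hW l hl))
  have h3 : ∫⁻ x, g x ^ (2:ℝ) ∂ν = ν Q := by
    have : ∀ x, g x ^ (2:ℝ) = Q.indicator (fun _ => (1:ℝ≥0∞)) x := by
      intro x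
      by_cases h : x ∈ Q <;> simp [hg, h]
    simp_rw [this]
    rw [lintegral_indicator hQ]
    simp
  have hH := ENNReal.lintegral_mul_le_Lp_mul_Lq ν (Real.HolderConjugate.two_two)
    hfm.aemeasurable hgm.aemeasurable
  simp only [Pi.mul_apply] at hH
  rw [h1, h2, h3] at hH
  calc (∑ i ∈ s, ν (W i ∩ Q)) ^ 2
      ≤ ((∑ i ∈ s, ∑ l ∈ s, ν (W i ∩ W l)) ^ (1 / (2:ℝ)) * ν Q ^ (1 / (2:ℝ))) ^ 2 := by gcongr
    _ = _ := by
      rw [mul_pow, ← ENNReal.rpow_natCast, ← ENNReal.rpow_natCast, ← ENNReal.rpow_mul,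
        ← ENNReal.rpow_mul]
      norm_num
      rw [mul_comm]

theorem harm_le (X : ℕ) : ∑ m ∈ Finset.range X, (1:ℝ) / (1 + m) ≤ 1 + Real.log X := by
  have h := harmonic_le_one_add_log X
  have e : ((harmonic X : ℚ) : ℝ) = ∑ m ∈ Finset.range X, (1:ℝ) / (1 + m) := by
    unfold harmonic
    push_cast
    refine Finset.sum_congr rfl fun m _ => ?_
    rw [one_div, add_comm]
  rw [← e]
  exact h

theorem dist_sum_le (X l : ℕ) (hl : l < X) (s : Finset ℕ) (hs : s ⊆ Finset.range X) :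
    ∑ m ∈ s, (1:ℝ) / (1 + |(l:ℝ) - m|) ≤ 2 * (1 + Real.log X) := by
  classical
  have h0 : ∑ m ∈ s, (1:ℝ) / (1 + |(l:ℝ) - m|) ≤
      ∑ m ∈ Finset.range X, (1:ℝ) / (1 + |(l:ℝ) - m|) :=
    Finset.sum_le_sum_of_subset_of_nonneg hs (fun _ _ _ => by positivity)
  have hsplit : Finset.range X ⊆ Finset.range (l + 1) ∪ Finset.Ico l X := by
    intro m hm
    rw [Finset.mem_union, Finset.mem_range, Finset.mem_Ico]
    rw [Finset.mem_range] at hm
    omega
  have h1 : ∑ m ∈ Finset.range X, (1:ℝ) / (1 + |(l:ℝ) - m|) ≤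
      ∑ m ∈ Finset.range (l + 1), (1:ℝ) / (1 + |(l:ℝ) - m|) +
        ∑ m ∈ Finset.Ico l X, (1:ℝ) / (1 + |(l:ℝ) - m|) := by
    refine (Finset.sum_le_sum_of_subset_of_nonneg hsplit (fun _ _ _ => by positivity)).trans ?_
    rw [← Finset.sum_union_inter]
    have : 0 ≤ ∑ m ∈ Finset.range (l + 1) ∩ Finset.Ico l X, (1:ℝ) / (1 + |(l:ℝ) - m|) :=
      Finset.sum_nonneg fun _ _ => by positivity
    linarith
  have h2 : ∑ m ∈ Finset.range (l + 1), (1:ℝ) / (1 + |(l:ℝ) - m|) ≤
      ∑ m ∈ Finset.range X, (1:ℝ) / (1 + m) := by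
    rw [← Finset.sum_range_reflect]
    calc ∑ j ∈ Finset.range (l + 1), (1:ℝ) / (1 + |(l:ℝ) - ((l + 1 - 1 - j : ℕ) : ℝ)|)
        = ∑ j ∈ Finset.range (l + 1), (1:ℝ) / (1 + j) := by
          refine Finset.sum_congr rfl fun j hj => ?_
          rw [Finset.mem_range] at hj
          have e : ((l + 1 - 1 - j : ℕ) : ℝ) = l - j := by
            rw [Nat.add_sub_cancel, Nat.cast_sub (by omega)]
          rw [e]
          have : (l:ℝ) - (l - j) = j := by ring
          rw [this, abs_of_nonneg (Nat.cast_nonneg j)]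
      _ ≤ _ := by
          refine Finset.sum_le_sum_of_subset_of_nonneg ?_ (fun _ _ _ => by positivity)
          intro m hm
          rw [Finset.mem_range] at hm ⊢
          omega
  have h3 : ∑ m ∈ Finset.Ico l X, (1:ℝ) / (1 + |(l:ℝ) - m|) ≤
      ∑ m ∈ Finset.range X, (1:ℝ) / (1 + m) := by
    rw [Finset.sum_Ico_eq_sum_range]
    calc ∑ j ∈ Finset.range (X - l), (1:ℝ) / (1 + |(l:ℝ) - ((l + j : ℕ) : ℝ)|)
        = ∑ j ∈ Finset.range (X - l), (1:ℝ) / (1 + j) := by
          refine Finset.sum_congr rfl fun j _ => ?_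
          have : (l:ℝ) - ((l + j : ℕ) : ℝ) = -j := by push_cast; ring
          rw [this, abs_neg, abs_of_nonneg (Nat.cast_nonneg j)]
      _ ≤ _ := by
          refine Finset.sum_le_sum_of_subset_of_nonneg ?_ (fun _ _ _ => by positivity)
          intro m hm
          rw [Finset.mem_range] at hm ⊢
          omega
  have h4 := harm_le X
  linarith

/-- points of a set in different cells -/
theorem cells {U : Set ℝ} {M δ : ℝ} (hδ : 0 < δ) (hU : ∀ u ∈ U, 0 ≤ u ∧ u ≤ M) :
    ∃ (L : Finset ℕ) (p : ℕ → ℝ), (∀ l ∈ L, p l ∈ U ∧ l * δ ≤ p l ∧ p l < (l + 1) * δ) ∧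
      L ⊆ Finset.range (⌊M / δ⌋₊ + 1) ∧ volume U ≤ ENNReal.ofReal (L.card * δ) := by
  classical
  set L : Finset ℕ := (Finset.range (⌊M / δ⌋₊ + 1)).filter
    (fun l => (U ∩ Ico (l * δ) ((l + 1) * δ)).Nonempty) with hL
  have hch : ∀ l ∈ L, (U ∩ Ico (l * δ) ((l + 1) * δ)).Nonempty := fun l hl =>
    (Finset.mem_filter.1 hl).2
  set p : ℕ → ℝ := fun l => if h : (U ∩ Ico (l * δ) ((l + 1) * δ)).Nonempty then h.choose else 0
    with hp
  refine ⟨L, p, ?_, Finset.filter_subset _ _, ?_⟩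
  · intro l hl
    have h := hch l hl
    have : p l = h.choose := by simp only [hp]; rw [dif_pos h]
    rw [this]
    exact ⟨h.choose_spec.1, h.choose_spec.2.1, h.choose_spec.2.2⟩
  · have hcov : U ⊆ ⋃ l ∈ L, Ico ((l:ℝ) * δ) ((l + 1) * δ) := by
      intro u hu
      obtain ⟨h0, hM⟩ := hU u hu
      set l := ⌊u / δ⌋₊ with hl
      have h1 : (l:ℝ) ≤ u / δ := Nat.floor_le (by positivity)
      have h2 : u / δ < l + 1 := Nat.lt_floor_add_one _
      rw [le_div_iff₀ hδ] at h1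
      rw [div_lt_iff₀ hδ] at h2
      have h3 : l ∈ L := by
        rw [hL, Finset.mem_filter, Finset.mem_range]
        refine ⟨?_, u, hu, h1, h2⟩
        have : l ≤ ⌊M / δ⌋₊ := Nat.floor_le_floor (by gcongr)
        omega
      exact mem_iUnion₂.2 ⟨l, h3, h1, h2⟩
    calc volume U ≤ volume (⋃ l ∈ L, Ico ((l:ℝ) * δ) ((l + 1) * δ)) := measure_mono hcov
      _ ≤ ∑ l ∈ L, volume (Ico ((l:ℝ) * δ) ((l + 1) * δ)) := measure_biUnion_finset_le _ _
      _ = ∑ l ∈ L, ENNReal.ofReal δ := by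
          refine Finset.sum_congr rfl fun l _ => ?_
          rw [Real.volume_Ico]
          congr 1
          ring
      _ = _ := by
          rw [Finset.sum_const, nsmul_eq_mul, ENNReal.ofReal_mul (Nat.cast_nonneg _),
            ENNReal.ofReal_natCast]

end Pool.Agent.H65.EF
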