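import Pool.Agent.H65.EF.Pair

set_option autoImplicit false

/-!
# Expanding fronts: lower bounds for the part of a front in a set
-/

open MeasureTheory Set Metric
open scoped ENNReal NNReal Pointwise RealInnerProductSpace

namespace Pool.Agent.H65.EF

variable {V : Type*} [NormedAddCommGroup V] [InnerProductSpace ℝ V] [FiniteDimensional ℝ V]
  [MeasurableSpace V] [BorelSpace V] (μ : Measure V) [μ.IsAddHaarMeasure]

/-- the cone over a set -/
def cone (D : Set V) : Set V := {x | ∃ v ∈ D, ∃ c ∈ Ioc (0:ℝ) 1, x = c • v}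

/-- the outer layer of the cone over a set -/
def layer (ε : ℝ) (D : Set V) : Set V := {x | ∃ v ∈ D, ∃ c ∈ Ioc (1 - ε) 1, x = c • v}

omit [FiniteDimensional ℝ V] [MeasurableSpace V] [BorelSpace V] in
theorem cone_mono {D D' : Set V} (h : D ⊆ D') : cone D ⊆ cone D' := by
  rintro x ⟨v, hv, c, hc, rfl⟩
  exact ⟨v, h hv, c, hc, rfl⟩

omit [FiniteDimensional ℝ V] [MeasurableSpace V] [BorelSpace V] in
theorem cone_sub_ball {D : Set V} {u : ℝ} (hD : ∀ v ∈ D, ‖v‖ ≤ u) : cone D ⊆ closedBall 0 u := by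
  rintro x ⟨v, hv, c, hc, rfl⟩
  rw [mem_closedBall, dist_zero_right, norm_smul, Real.norm_of_nonneg hc.1.le]
  have h1 := hD v hv
  have h2 := norm_nonneg v
  calc c * ‖v‖ ≤ 1 * ‖v‖ := by gcongr; exact hc.2
    _ ≤ u := by linarith

omit [BorelSpace V] in
theorem cone_lt_top {D : Set V} {u : ℝ} (hD : ∀ v ∈ D, ‖v‖ ≤ u) : μ (cone D) < ∞ :=
  (measure_mono (cone_sub_ball hD)).trans_lt (isCompact_closedBall (0 : V) _).measure_lt_top

theorem le_layer (hk : 1 ≤ Module.finrank ℝ V) {D : Set V} {u ε : ℝ} (hD : ∀ v ∈ D, ‖v‖ ≤ u)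
    (hε : 0 < ε) (hε1 : ε ≤ 1) : ENNReal.ofReal ε * μ (cone D) ≤ μ (layer ε D) := by
  have hsub : cone D ⊆ (1 - ε) • cone D ∪ layer ε D := by
    rintro x ⟨v, hv, c, hc, rfl⟩
    by_cases hcε : c ≤ 1 - ε
    · left
      have h1 : 0 < 1 - ε := hc.1.trans_le hcε
      refine ⟨(c / (1 - ε)) • v, ⟨v, hv, c / (1 - ε), ⟨div_pos hc.1 h1, ?_⟩, rfl⟩, ?_⟩
      · rw [div_le_one h1]; exact hcε
      · simp only [smul_smul]
        congr 1
        field_simp
    · right
      exact ⟨v, hv, c, ⟨by linarith, hc.2⟩, rfl⟩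
  have hfin := (cone_lt_top μ hD).ne
  have h1 : μ (cone D) ≤ ENNReal.ofReal (1 - ε) * μ (cone D) + μ (layer ε D) := by
    calc μ (cone D) ≤ μ ((1 - ε) • cone D ∪ layer ε D) := measure_mono hsub
      _ ≤ μ ((1 - ε) • cone D) + μ (layer ε D) := measure_union_le _ _
      _ ≤ _ := by
        gcongr
        rw [Measure.addHaar_smul]
        gcongr
        rw [abs_of_nonneg (pow_nonneg (by linarith) _)]
        calc (1 - ε) ^ Module.finrank ℝ V ≤ (1 - ε) ^ 1 :=
              pow_le_pow_of_le_one (by linarith) (by linarith) hk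
          _ = _ := pow_one _
  have e : μ (cone D) = ENNReal.ofReal (1 - ε) * μ (cone D) + ENNReal.ofReal ε * μ (cone D) := by
    rw [← add_mul, ← ENNReal.ofReal_add (by linarith) hε.le]
    simp
  conv at h1 => lhs; rw [e]
  exact (ENNReal.add_le_add_iff_left (ENNReal.mul_ne_top ENNReal.ofReal_ne_top hfin)).1 h1

/-- the set swept at one time is large -/
theorem sweep {Z D : Set V} {a : V → V} {u τ ε : ℝ} (hu : 0 < u) (hτ : 0 < τ) (hε1 : ε ≤ 1)
    (hD : ∀ v ∈ D, ‖v‖ = u) (hn : ∀ v ∈ D, Nor Z (a v) v) :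
    ENNReal.ofReal (τ ^ Module.finrank ℝ V) * μ (layer ε D) ≤
      μ {y | ∃ v ∈ D, ∃ c ∈ Ioc (1 - ε) 1, y = a v + (τ * c) • v} := by
  set G : V → V := fun x => a ((u / ‖x‖) • x) + x with hG
  have hdec : ∀ x ∈ τ • layer ε D, ∃ v ∈ D, ∃ c ∈ Ioc (1 - ε) 1, 0 < τ * c ∧ x = (τ * c) • v ∧
      G x = a v + (τ * c) • v := by
    rintro x ⟨_, ⟨v, hv, c, hc, rfl⟩, rfl⟩
    have hc0 : 0 < c := by linarith [hc.1]
    have hτc : 0 < τ * c := by positivity
    refine ⟨v, hv, c, hc, hτc, ?_, ?_⟩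
    · simp only [smul_smul]
    · simp only [hG, smul_smul]
      have : u / ‖(τ * c) • v‖ * (τ * c) = 1 := by
        rw [norm_smul, Real.norm_of_nonneg hτc.le, hD v hv]
        field_simp
      rw [this, one_smul]
  have hexp : ∀ x ∈ τ • layer ε D, ∀ y ∈ τ • layer ε D, dist x y ≤ dist (G x) (G y) := by
    intro x hx y hy
    obtain ⟨v, hv, c, hc, hτc, rfl, hGx⟩ := hdec x hx
    obtain ⟨v', hv', c', hc', hτc', rfl, hGy⟩ := hdec y hy
    rw [hGx, hGy, dist_eq_norm, dist_eq_norm]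
    exact ((hn v hv).smul hτc.le).norm_w_le ((hn v' hv').smul hτc'.le)
  have h1 := le_vol_image μ hexp
  rw [Measure.addHaar_smul, abs_of_pos (pow_pos hτ _)] at h1
  refine h1.trans (measure_mono ?_)
  rintro _ ⟨x, hx, rfl⟩
  obtain ⟨v, hv, c, hc, -, -, hGx⟩ := hdec x hx
  exact ⟨v, hv, c, hc, hGx⟩

/-- lower bound at one time -/
theorem low_time (hk : 1 ≤ Module.finrank ℝ V) {Z D : Set V} {a : V → V} {u h q₁ q₂ δ B t : ℝ}
    (hu : 0 < u) (hq1 : h < q₁) (ht : t ∈ Icc q₁ q₂) (hδ : 0 < δ) (hδB : δ ≤ B)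
    (hB : u * (q₂ - h) ≤ B) (hD : ∀ v ∈ D, ‖v‖ = u) (hn : ∀ v ∈ D, Nor Z (a v) v)
    {Q₀ Q : Set (V × ℝ)} (hQ : ∀ y y' : V, (y, t) ∈ Q₀ → dist y' y ≤ δ → (y', t) ∈ Q) :
    ENNReal.ofReal ((q₁ - h) ^ Module.finrank ℝ V * (δ / B)) *
      μ (cone {v ∈ D | (a v + (t - h) • v, t) ∈ Q₀}) ≤
      μ ((fun y => (y, t)) ⁻¹' (front q₁ q₂ δ Z u h ∩ Q)) := by
  set D' : Set V := {v ∈ D | (a v + (t - h) • v, t) ∈ Q₀} with hD'
  have hB0 : 0 < B := hδ.trans_le hδB
  set ε : ℝ := δ / B with hε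
  have hε0 : 0 < ε := div_pos hδ hB0
  have hε1 : ε ≤ 1 := by rw [hε, div_le_one hB0]; exact hδB
  have hτ : 0 < t - h := by linarith [ht.1]
  have h1 := le_layer μ hk (D := D') (u := u) (fun v hv => (hD v hv.1).le) hε0 hε1
  have h2 := sweep μ (Z := Z) (D := D') (a := a) hu hτ hε1 (fun v hv => hD v hv.1)
    (fun v hv => hn v hv.1)
  calc ENNReal.ofReal ((q₁ - h) ^ Module.finrank ℝ V * ε) * μ (cone D')
      ≤ ENNReal.ofReal ((t - h) ^ Module.finrank ℝ V * ε) * μ (cone D') := by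
        have := ht.1
        gcongr
    _ = ENNReal.ofReal ((t - h) ^ Module.finrank ℝ V) * (ENNReal.ofReal ε * μ (cone D')) := by
        rw [ENNReal.ofReal_mul (by positivity), mul_assoc]
    _ ≤ ENNReal.ofReal ((t - h) ^ Module.finrank ℝ V) * μ (layer ε D') := by gcongr
    _ ≤ _ := h2
    _ ≤ _ := by
        refine measure_mono ?_
        rintro y ⟨v, hv, c, hc, rfl⟩
        have hc0 : 0 ≤ c := by linarith [hc.1]
        have hvu := hD v hv.1
        have hsmall : u * (t - h) * (1 - c) ≤ δ := by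
          calc u * (t - h) * (1 - c) ≤ u * (q₂ - h) * ε := by
                have h3 : u * (t - h) ≤ u * (q₂ - h) :=
                  mul_le_mul_of_nonneg_left (by linarith [ht.2]) hu.le
                have h4 : 0 ≤ u * (q₂ - h) := mul_nonneg hu.le (by linarith [ht.1, ht.2])
                exact mul_le_mul h3 (by linarith [hc.1]) (by linarith [hc.2]) h4
            _ ≤ B * ε := by gcongr
            _ = δ := by rw [hε]; field_simp
        refine ⟨⟨ht, ?_⟩, ?_⟩
        · change |infDist (a v + ((t - h) * c) • v) Z - u * (t - h)| ≤ δ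
          have hnn : 0 ≤ (t - h) * c := by positivity
          rw [((hn v hv.1).smul hnn).infDist, norm_smul, Real.norm_of_nonneg hnn, hvu]
          rw [abs_le]
          have : 0 ≤ u * (t - h) * (1 - c) := by
            have := hc.2
            have h3 : 0 ≤ 1 - c := by linarith
            positivity
          constructor <;> nlinarith
        · refine hQ _ _ hv.2 ?_
          rw [dist_eq_norm]
          have : a v + ((t - h) * c) • v - (a v + (t - h) • v) = ((t - h) * (c - 1)) • v := by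
            rw [add_sub_add_left_eq_sub, ← sub_smul]
            congr 1
            ring
          rw [this, norm_smul, hvu, Real.norm_eq_abs, abs_mul, abs_of_pos hτ,
            abs_of_nonpos (by linarith [hc.2])]
          linarith

/-- at one of the scales the front has a large part in the cover -/
theorem low (hk : 1 ≤ Module.finrank ℝ V) {Z D : Set V} {a : V → V} {u h q₁ q₂ B : ℝ}
    {δ β : ℕ → ℝ}
    (hu : 0 < u) (hq1 : h < q₁) (hq : q₁ < q₂) (hδ : ∀ j, 0 < δ j) (hδB : ∀ j, δ j ≤ B)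
    (hB : u * (q₂ - h) ≤ B) (hD : ∀ v ∈ D, ‖v‖ = u) (hn : ∀ v ∈ D, Nor Z (a v) v)
    (hβ0 : ∀ j, 0 < β j) (hβ : ∑' j, ENNReal.ofReal (β j) ≤ 1 / 2) (hm : μ (cone D) ≠ 0)
    {Q₀ Q : ℕ → Set (V × ℝ)} (hQm : ∀ j, MeasurableSet (Q j))
    (hQ : ∀ j, ∀ y y' : V, ∀ t : ℝ, (y, t) ∈ Q₀ j → dist y' y ≤ δ j → (y', t) ∈ Q j)
    (hcov : ∀ v ∈ D, ∀ t ∈ Icc q₁ q₂, ∃ j, (a v + (t - h) • v, t) ∈ Q₀ j) :
    ∃ j, ENNReal.ofReal ((q₂ - q₁) * ((q₁ - h) ^ Module.finrank ℝ V * (δ j / B)) * β j) *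
      μ (cone D) ≤ (μ.prod volume) (front q₁ q₂ (δ j) Z u h ∩ Q j) := by
  by_contra hcon
  push Not at hcon
  have hB0 : 0 < B := (hδ 0).trans_le (hδB 0)
  have hτ0 : 0 < q₁ - h := by linarith
  set k := Module.finrank ℝ V with hkdef
  set c : ℕ → ℝ := fun j => (q₁ - h) ^ k * (δ j / B) with hc
  have hc0 : ∀ j, 0 < c j := fun j => by
    have := hδ j
    simp only [hc]; positivity
  set F : ℕ → Set (V × ℝ) := fun j => front q₁ q₂ (δ j) Z u h ∩ Q j with hF
  have hFm : ∀ j, MeasurableSet (F j) := fun j =>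
    (isClosed_front _ _ _ _ _ _).measurableSet.inter (hQm j)
  have hfin : μ (cone D) ≠ ∞ := (cone_lt_top μ (u := u) (fun v hv => (hD v hv).le)).ne
  -- at each time
  have htime : ∀ t ∈ Icc q₁ q₂, μ (cone D) ≤
      ∑' j, (ENNReal.ofReal (c j))⁻¹ * μ ((fun y => (y, t)) ⁻¹' F j) := by
    intro t ht
    have h1 : cone D ⊆ ⋃ j, cone {v ∈ D | (a v + (t - h) • v, t) ∈ Q₀ j} := by
      rintro x ⟨v, hv, r, hr, rfl⟩
      obtain ⟨j, hj⟩ := hcov v hv t ht
      exact mem_iUnion.2 ⟨j, v, ⟨hv, hj⟩, r, hr, rfl⟩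
    refine (measure_mono h1).trans ((measure_iUnion_le _).trans ?_)
    refine ENNReal.tsum_le_tsum fun j => ?_
    have h2 := low_time μ hk hu hq1 ht (hδ j) (hδB j) hB hD hn (Q₀ := Q₀ j) (Q := Q j)
      (fun y y' => hQ j y y' t)
    have hne : ENNReal.ofReal (c j) ≠ 0 := by
      rw [Ne, ENNReal.ofReal_eq_zero, not_le]; exact hc0 j
    rw [← ENNReal.div_eq_inv_mul, ENNReal.le_div_iff_mul_le (Or.inl hne)
      (Or.inl ENNReal.ofReal_ne_top), mul_comm]
    exact h2
  -- integrate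
  have hint : ENNReal.ofReal (q₂ - q₁) * μ (cone D) ≤
      ∑' j, (ENNReal.ofReal (c j))⁻¹ * (μ.prod volume) (F j) := by
    calc ENNReal.ofReal (q₂ - q₁) * μ (cone D) = ∫⁻ _ in Icc q₁ q₂, μ (cone D) := by
          rw [setLIntegral_const, Real.volume_Icc, mul_comm]
      _ ≤ ∫⁻ t in Icc q₁ q₂, ∑' j, (ENNReal.ofReal (c j))⁻¹ * μ ((fun y => (y, t)) ⁻¹' F j) :=
          setLIntegral_mono' measurableSet_Icc htime
      _ ≤ ∫⁻ t, ∑' j, (ENNReal.ofReal (c j))⁻¹ * μ ((fun y => (y, t)) ⁻¹' F j) :=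
          setLIntegral_le_lintegral _ _
      _ = ∑' j, ∫⁻ t, (ENNReal.ofReal (c j))⁻¹ * μ ((fun y => (y, t)) ⁻¹' F j) := by
          refine lintegral_tsum fun j => ?_
          exact ((measurable_measure_prodMk_right (hFm j)).const_mul _).aemeasurable
      _ = _ := by
          refine tsum_congr fun j => ?_
          rw [lintegral_const_mul _ (measurable_measure_prodMk_right (hFm j)),
            Measure.prod_apply_symm (hFm j)]
  have hup : ∑' j, (ENNReal.ofReal (c j))⁻¹ * (μ.prod volume) (F j) ≤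
      ENNReal.ofReal (q₂ - q₁) * μ (cone D) * (1 / 2) := by
    calc ∑' j, (ENNReal.ofReal (c j))⁻¹ * (μ.prod volume) (F j)
        ≤ ∑' j, (ENNReal.ofReal (q₂ - q₁) * μ (cone D)) * ENNReal.ofReal (β j) := by
          refine ENNReal.tsum_le_tsum fun j => ?_
          have h3 := (hcon j).le
          have hne : ENNReal.ofReal (c j) ≠ 0 := by
            rw [Ne, ENNReal.ofReal_eq_zero, not_le]; exact hc0 j
          rw [← ENNReal.div_eq_inv_mul]
          refine ENNReal.div_le_of_le_mul (h3.trans (le_of_eq ?_))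
          have e : (q₂ - q₁) * ((q₁ - h) ^ k * (δ j / B)) * β j = (q₂ - q₁) * β j * c j := by
            simp only [hc]; ring
          rw [e, ENNReal.ofReal_mul (by have := (hβ0 j).le; have : 0 ≤ q₂ - q₁ := by linarith
                                        positivity),
            ENNReal.ofReal_mul (by linarith)]
          ring
      _ = (ENNReal.ofReal (q₂ - q₁) * μ (cone D)) * ∑' j, ENNReal.ofReal (β j) :=
          ENNReal.tsum_mul_left
      _ ≤ _ := by gcongr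
  have h5 := hint.trans hup
  have hX0 : ENNReal.ofReal (q₂ - q₁) * μ (cone D) ≠ 0 := by
    refine mul_ne_zero ?_ hm
    rw [Ne, ENNReal.ofReal_eq_zero, not_le]; linarith
  have hXt : ENNReal.ofReal (q₂ - q₁) * μ (cone D) ≠ ∞ := ENNReal.mul_ne_top ENNReal.ofReal_ne_top hfin
  have h6 : ENNReal.ofReal (q₂ - q₁) * μ (cone D) * (1 / 2) <
      ENNReal.ofReal (q₂ - q₁) * μ (cone D) := by
    have := ENNReal.half_lt_self hX0 hXt
    rwa [div_eq_mul_inv, ← one_div] at this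
  exact absurd h5 (not_le.2 h6)

end Pool.Agent.H65.EF
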