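import Pool.Agent.H65.EF.Red

set_option autoImplicit false

/-!
# Expanding fronts: volumes of neighbourhoods
-/

open MeasureTheory Set Metric
open scoped ENNReal NNReal Pointwise RealInnerProductSpace

namespace Pool.Agent.H65.EF

variable {V : Type*} [NormedAddCommGroup V] [InnerProductSpace ℝ V] [FiniteDimensional ℝ V]
  [MeasurableSpace V] [BorelSpace V] (μ : Measure V) [μ.IsAddHaarMeasure]

theorem core_mink (hk : 1 ≤ Module.finrank ℝ V) {M q₁ q₂ : ℝ} {U : Set ℝ} {Z : ℝ → Set V}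
    {h : ℝ → ℝ} {D : ℝ → Set V} {a : V → V} (H : Unif μ M q₁ q₂ U Z h D a)
    (hU0 : volume U ≠ 0) {K : Set (V × ℝ)}
    (hK : ∀ u ∈ U, ∀ v ∈ D u, ∀ t ∈ Icc q₁ q₂, (a v + (t - h u) • v, t) ∈ K) :
    ∃ c : ℝ, 0 < c ∧ ∀ δ : ℝ, 0 < δ → δ < 1 / 2 →
      ENNReal.ofReal (c / Real.log (1 / δ)) ≤ (μ.prod volume) (thickening δ K) := by
  classical
  have hM := H.one_le
  have hM0 : 0 < M := by linarith
  set k := Module.finrank ℝ V with hkdef
  set ν := μ.prod (volume : Measure ℝ) with hν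
  have hUt : volume U ≠ ∞ := by
    refine ne_top_of_le_ne_top (b := volume (Icc (1 / M) M)) ?_ (measure_mono fun u hu =>
      ⟨(H.u_mem u hu).1, (H.u_mem u hu).2⟩)
    rw [Real.volume_Icc]
    exact ENNReal.ofReal_ne_top
  set m := (volume U).toReal with hm
  have hm0 : 0 < m := ENNReal.toReal_pos hU0 hUt
  have hmU : volume U = ENNReal.ofReal m := by rw [hm, ENNReal.ofReal_toReal hUt]
  set κ : ℝ := (q₂ - q₁) * ((1 / M) ^ k / M ^ 2) * (1 / M) with hκ
  have hqq : 0 < q₂ - q₁ := sub_pos.2 H.lt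
  have hκ0 : 0 < κ := by positivity
  have hC3 := C3_nonneg μ hM
  have hlog2 : 0 < Real.log 2 := Real.log_pos (by norm_num)
  set A : ℝ := (1 + Real.log (4 * M ^ 3)) / Real.log 2 + 1 with hA
  have hM3 : 1 ≤ M ^ 3 := one_le_pow₀ hM
  have hlog4 : 0 ≤ Real.log (4 * M ^ 3) := Real.log_nonneg (by linarith)
  have hA0 : 0 < A := by positivity
  refine ⟨κ ^ 2 * m / ((C3 μ M + 1) * (2 * A)), by positivity, ?_⟩
  intro δ hδ hδ2
  set δ' : ℝ := δ / (2 * M ^ 2) with hδ'
  have hM2 : 1 ≤ M ^ 2 := one_le_pow₀ hM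
  have hδ'0 : 0 < δ' := by positivity
  have hδ'δ : δ' < δ := by
    rw [hδ', div_lt_iff₀ (by positivity)]
    nlinarith
  have hδ'M : δ' ≤ 1 / (2 * M ^ 2) := by
    rw [hδ']
    gcongr
    linarith
  have hL : Real.log 2 ≤ Real.log (1 / δ) := by
    apply Real.log_le_log (by norm_num)
    rw [le_div_iff₀ hδ]; linarith
  have hL0 : 0 < Real.log (1 / δ) := hlog2.trans_le hL
  -- the lower bounds
  have hlow : ∀ u ∈ U, ENNReal.ofReal (κ * δ') ≤
      ν (front q₁ q₂ δ' (Z u) u (h u) ∩ thickening δ K) := by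
    intro u hu
    have hu1 := H.u_mem u hu
    have hh1 := H.h_mem u hu
    have h1M : 0 < 1 / M := by positivity
    have hu0 : 0 < u := lt_of_lt_of_le h1M hu1.1
    have hB : u * (q₂ - h u) ≤ M ^ 2 := by
      rw [pow_two]
      exact mul_le_mul hu1.2 hh1.2 (by linarith [hh1.1, H.lt]) hM0.le
    have hFm : MeasurableSet (front q₁ q₂ δ' (Z u) u (h u) ∩ thickening δ K) :=
      (isClosed_front _ _ _ _ _ _).measurableSet.inter isOpen_thickening.measurableSet
    have htime : ∀ t ∈ Icc q₁ q₂, ENNReal.ofReal ((1 / M) ^ k * (δ' / M ^ 2) * (1 / M)) ≤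
        μ ((fun y => (y, t)) ⁻¹' (front q₁ q₂ δ' (Z u) u (h u) ∩ thickening δ K)) := by
      intro t ht
      have h2 := low_time μ hk hu0 (by linarith [hh1.1] : h u < q₁) ht hδ'0
        (B := M ^ 2) (by
          calc δ' ≤ 1 / (2 * M ^ 2) := hδ'M
            _ ≤ 1 := by rw [div_le_one (by positivity)]; linarith
            _ ≤ M ^ 2 := hM2) hB (H.norm_eq u hu)
        (H.nor u hu) (Q₀ := K) (Q := thickening δ K) (by
          intro y y' hy hd
          rw [mem_thickening_iff]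
          refine ⟨(y, t), hy, ?_⟩
          rw [Prod.dist_eq]
          simp only [dist_self]
          exact max_lt (hd.trans_lt hδ'δ) hδ)
      have h3 : {v ∈ D u | (a v + (t - h u) • v, t) ∈ K} = D u := by
        ext v
        exact ⟨fun hv => hv.1, fun hv => ⟨hv, hK u hu v hv t ht⟩⟩
      rw [h3] at h2
      refine le_trans ?_ h2
      calc ENNReal.ofReal ((1 / M) ^ k * (δ' / M ^ 2) * (1 / M))
          = ENNReal.ofReal ((1 / M) ^ k * (δ' / M ^ 2)) * ENNReal.ofReal (1 / M) :=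
            ENNReal.ofReal_mul (by positivity)
        _ ≤ _ := by
            have := hh1.1
            gcongr
            exact H.big u hu
    calc ENNReal.ofReal (κ * δ')
        = ∫⁻ _ in Icc q₁ q₂, ENNReal.ofReal ((1 / M) ^ k * (δ' / M ^ 2) * (1 / M)) := by
          rw [setLIntegral_const, Real.volume_Icc, ← ENNReal.ofReal_mul (by positivity)]
          congr 1
          rw [hκ]; ring
      _ ≤ ∫⁻ t in Icc q₁ q₂,
          μ ((fun y => (y, t)) ⁻¹' (front q₁ q₂ δ' (Z u) u (h u) ∩ thickening δ K)) :=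
          setLIntegral_mono' measurableSet_Icc htime
      _ ≤ ∫⁻ t, μ ((fun y => (y, t)) ⁻¹' (front q₁ q₂ δ' (Z u) u (h u) ∩ thickening δ K)) :=
          setLIntegral_le_lintegral _ _
      _ = _ := (Measure.prod_apply_symm hFm).symm
  have hmain := one_scale μ hM H.lt hδ'0 hδ'M H.u_mem H.h_mem H.body
    isOpen_thickening.measurableSet hκ0 hlow
  have hlogle : 1 + Real.log (M / δ' + 1) ≤ A * Real.log (1 / δ) := by
    have h1 : M / δ' + 1 ≤ 4 * M ^ 3 * (1 / δ) := by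
      have e : M / δ' = 2 * M ^ 3 * (1 / δ) := by
        rw [hδ']; field_simp
      have : 1 ≤ 2 * M ^ 3 * (1 / δ) := by
        have h3 : 1 ≤ 1 / δ := by rw [le_div_iff₀ hδ]; linarith
        nlinarith
      rw [e]; linarith
    have h2 : Real.log (M / δ' + 1) ≤ Real.log (4 * M ^ 3) + Real.log (1 / δ) := by
      rw [← Real.log_mul (by positivity) (by positivity)]
      exact Real.log_le_log (by positivity) h1
    have h3 : 1 + Real.log (4 * M ^ 3) ≤
        (1 + Real.log (4 * M ^ 3)) / Real.log 2 * Real.log (1 / δ) := by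
      rw [div_mul_eq_mul_div, le_div_iff₀ hlog2]
      gcongr
    rw [hA]
    linarith
  have hlog0 : 0 ≤ 1 + Real.log (M / δ' + 1) := by
    have : 0 ≤ Real.log (M / δ' + 1) := Real.log_nonneg (by
      have : 0 ≤ M / δ' := by positivity
      linarith)
    linarith
  have hX0 : 0 < (C3 μ M + 1) * (2 * A) * Real.log (1 / δ) := by positivity
  have h1 : ENNReal.ofReal (κ ^ 2 * m) ≤
      ENNReal.ofReal ((C3 μ M + 1) * (2 * A) * Real.log (1 / δ)) * ν (thickening δ K) := by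
    calc ENNReal.ofReal (κ ^ 2 * m) = ENNReal.ofReal (κ ^ 2) * volume U := by
          rw [hmU, ENNReal.ofReal_mul (by positivity)]
      _ ≤ _ := hmain
      _ ≤ _ := by
          gcongr ENNReal.ofReal ?_ * _
          calc C3 μ M * (2 * (1 + Real.log (M / δ' + 1)))
              ≤ (C3 μ M + 1) * (2 * (A * Real.log (1 / δ))) := by
                gcongr
                linarith
            _ = _ := by ring
  rw [div_div, ENNReal.ofReal_div_of_pos hX0]
  exact ENNReal.div_le_of_le_mul' h1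

theorem main_pos_mink (hk : 1 ≤ Module.finrank ℝ V) {D : Set V} {a : V → V} {h : ℝ → ℝ}
    {K : Set (V × ℝ)}
    (hmono : ∀ v ∈ D, ∀ w ∈ D, ‖v‖ = ‖w‖ → 0 ≤ ⟪v, a v - a w⟫)
    (hK : ∀ v ∈ D, ∃ α β : ℝ, h ‖v‖ ≤ α ∧ α < β ∧
      ∀ t ∈ Ioo α β, (a v + (t - h ‖v‖) • v, t) ∈ K)
    (hpos : volume {u : ℝ | 0 < u ∧ μ (cone (D ∩ sphere 0 u)) ≠ 0} ≠ 0) :
    ∃ c : ℝ, 0 < c ∧ ∀ δ : ℝ, 0 < δ → δ < 1 / 2 →
      ENNReal.ofReal (c / Real.log (1 / δ)) ≤ (μ.prod volume) (thickening δ K) := by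
  obtain ⟨M, q₁, q₂, U, Z, D', H, hU, hK'⟩ := main_unif μ hmono hK hpos
  exact core_mink μ hk H hU hK'

omit [FiniteDimensional ℝ V] [BorelSpace V] [MeasurableSpace V] in
theorem cone_neg (D : Set V) : cone {v | -v ∈ D} = (-1 : ℝ) • cone D := by
  ext x
  constructor
  · rintro ⟨v, hv, c, hc, rfl⟩
    refine ⟨c • (-v), ⟨-v, hv, c, hc, rfl⟩, ?_⟩
    simp
  · rintro ⟨_, ⟨v, hv, c, hc, rfl⟩, rfl⟩
    refine ⟨-v, by simpa using hv, c, hc, ?_⟩
    simp

/-- reflection of the time -/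
def refl : (V × ℝ) ≃ᵢ (V × ℝ) where
  toFun x := (x.1, -x.2)
  invFun x := (x.1, -x.2)
  left_inv x := by simp
  right_inv x := by simp
  isometry_toFun := by
    refine Isometry.of_dist_eq fun x y => ?_
    rw [Prod.dist_eq, Prod.dist_eq]
    simp only [dist_neg_neg]

theorem refl_mp : MeasurePreserving (refl (V := V)) (μ.prod volume) (μ.prod volume) := by
  have h1 : MeasurePreserving (fun x : V => x) μ μ := MeasurePreserving.id μ
  have h2 : MeasurePreserving (fun t : ℝ => -t) volume volume := Measure.measurePreserving_neg _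
  exact h1.prod h2

/-- the main theorem, with signs -/
theorem main (hk : 1 ≤ Module.finrank ℝ V) {D : Set V} {a : V → V} {h σ : ℝ → ℝ}
    {K : Set (V × ℝ)} (hσ : ∀ u, σ u = 1 ∨ σ u = -1)
    (hmono : ∀ v ∈ D, ∀ w ∈ D, ‖v‖ = ‖w‖ → 0 ≤ σ ‖v‖ * ⟪v, a v - a w⟫)
    (hK : ∀ v ∈ D, ∃ α β : ℝ, α < β ∧ ∀ t ∈ Ioo α β, 0 < σ ‖v‖ * (t - h ‖v‖) ∧
      (a v + (t - h ‖v‖) • v, t) ∈ K)
    (hpos : volume {u : ℝ | 0 < u ∧ μ (cone (D ∩ sphere 0 u)) ≠ 0} ≠ 0) :
    (∀ s : ℝ, 0 < s → s < Module.finrank ℝ V + 1 → Measure.hausdorffMeasure s K ≠ 0) ∧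
    ∃ c : ℝ, 0 < c ∧ ∀ δ : ℝ, 0 < δ → δ < 1 / 2 →
      ENNReal.ofReal (c / Real.log (1 / δ)) ≤ (μ.prod volume) (thickening δ K) := by
  classical
  set D₁ : Set V := {v ∈ D | σ ‖v‖ = 1} with hD₁
  set D₂ : Set V := {v ∈ D | σ ‖v‖ = -1} with hD₂
  have hsplit : {u : ℝ | 0 < u ∧ μ (cone (D ∩ sphere 0 u)) ≠ 0} ⊆
      {u : ℝ | 0 < u ∧ μ (cone (D₁ ∩ sphere 0 u)) ≠ 0} ∪
      {u : ℝ | 0 < u ∧ μ (cone (D₂ ∩ sphere 0 u)) ≠ 0} := by
    rintro u ⟨hu, hne⟩
    rcases hσ u with h1 | h1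
    · left
      refine ⟨hu, ?_⟩
      have e : D₁ ∩ sphere 0 u = D ∩ sphere 0 u := by
        ext v
        constructor
        · rintro ⟨hv, hvu⟩; exact ⟨hv.1, hvu⟩
        · rintro ⟨hv, hvu⟩
          have : ‖v‖ = u := by rwa [mem_sphere, dist_zero_right] at hvu
          exact ⟨⟨hv, by rw [this]; exact h1⟩, hvu⟩
      rw [e]
      exact hne
    · right
      refine ⟨hu, ?_⟩
      have e : D₂ ∩ sphere 0 u = D ∩ sphere 0 u := by
        ext v
        constructor
        · rintro ⟨hv, hvu⟩; exact ⟨hv.1, hvu⟩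
        · rintro ⟨hv, hvu⟩
          have : ‖v‖ = u := by rwa [mem_sphere, dist_zero_right] at hvu
          exact ⟨⟨hv, by rw [this]; exact h1⟩, hvu⟩
      rw [e]
      exact hne
  have hor : volume {u : ℝ | 0 < u ∧ μ (cone (D₁ ∩ sphere 0 u)) ≠ 0} ≠ 0 ∨
      volume {u : ℝ | 0 < u ∧ μ (cone (D₂ ∩ sphere 0 u)) ≠ 0} ≠ 0 := by
    by_contra hcon
    push Not at hcon
    exact hpos (measure_mono_null hsplit (measure_union_null hcon.1 hcon.2))
  rcases hor with hp | hp
  · have hmono₁ : ∀ v ∈ D₁, ∀ w ∈ D₁, ‖v‖ = ‖w‖ → 0 ≤ ⟪v, a v - a w⟫ := by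
      intro v hv w hw e
      have := hmono v hv.1 w hw.1 e
      rwa [hv.2, one_mul] at this
    have hK₁ : ∀ v ∈ D₁, ∃ α β : ℝ, h ‖v‖ ≤ α ∧ α < β ∧
        ∀ t ∈ Ioo α β, (a v + (t - h ‖v‖) • v, t) ∈ K := by
      intro v hv
      obtain ⟨α, β, hαβ, hseg⟩ := hK v hv.1
      refine ⟨α, β, ?_, hαβ, fun t ht => (hseg t ht).2⟩
      by_contra hcon
      push Not at hcon
      have hmin : α < min β (h ‖v‖) := lt_min hαβ hcon
      obtain ⟨t, ht1, ht2⟩ := exists_between hmin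
      have := (hseg t ⟨ht1, ht2.trans_le (min_le_left _ _)⟩).1
      rw [hv.2, one_mul] at this
      have h3 := ht2.trans_le (min_le_right β (h ‖v‖))
      linarith
    exact ⟨fun s hs hs' => main_pos μ hk hmono₁ hK₁ hp hs hs', main_pos_mink μ hk hmono₁ hK₁ hp⟩
  · -- reflect
    set D' : Set V := {v | -v ∈ D₂} with hD'
    set a' : V → V := fun v => a (-v) with ha'
    set h' : ℝ → ℝ := fun u => -h u with hh'
    set K' : Set (V × ℝ) := refl ⁻¹' K with hK'
    have hmono₁ : ∀ v ∈ D', ∀ w ∈ D', ‖v‖ = ‖w‖ → 0 ≤ ⟪v, a' v - a' w⟫ := by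
      intro v hv w hw e
      have := hmono (-v) hv.1 (-w) hw.1 (by simpa using e)
      rw [hv.2] at this
      simp only [ha']
      rw [inner_neg_left] at this
      linarith
    have hK₁ : ∀ v ∈ D', ∃ α β : ℝ, h' ‖v‖ ≤ α ∧ α < β ∧
        ∀ t ∈ Ioo α β, (a' v + (t - h' ‖v‖) • v, t) ∈ K' := by
      intro v hv
      obtain ⟨α, β, hαβ, hseg⟩ := hK (-v) hv.1
      refine ⟨-β, -α, ?_, by linarith, fun t ht => ?_⟩
      · by_contra hcon
        push Not at hcon
        simp only [hh'] at hcon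
        have hmin : max α (h ‖v‖) < β := max_lt hαβ (by linarith)
        obtain ⟨t, ht1, ht2⟩ := exists_between hmin
        have h3 := (hseg t ⟨(le_max_left _ _).trans_lt ht1, ht2⟩).1
        rw [hv.2, norm_neg] at h3
        have h4 := (le_max_right α (h ‖v‖)).trans_lt ht1
        linarith
      · have h3 := (hseg (-t) ⟨by linarith [ht.2], by linarith [ht.1]⟩).2
        rw [norm_neg] at h3
        change ((a (-v) + (t - -h ‖v‖) • v), -t) ∈ K
        convert h3 using 2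
        rw [smul_neg, ← neg_smul]
        congr 2
        ring
    have hp' : volume {u : ℝ | 0 < u ∧ μ (cone (D' ∩ sphere 0 u)) ≠ 0} ≠ 0 := by
      convert hp using 5 with u
      have : D' ∩ sphere 0 u = {v | -v ∈ D₂ ∩ sphere 0 u} := by
        ext v
        simp [hD']
      rw [this, cone_neg, Measure.addHaar_smul]
      simp
    refine ⟨fun s hs hs' => ?_, ?_⟩
    · have := main_pos μ hk hmono₁ hK₁ hp' hs hs'
      rwa [hK', IsometryEquiv.hausdorffMeasure_preimage] at this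
    · obtain ⟨c, hc, hc'⟩ := main_pos_mink μ hk hmono₁ hK₁ hp'
      refine ⟨c, hc, fun δ hδ hδ2 => (hc' δ hδ hδ2).trans (le_of_eq ?_)⟩
      have : thickening δ K' = refl ⁻¹' thickening δ K := by
        ext x
        rw [mem_preimage, mem_thickening_iff, mem_thickening_iff]
        constructor
        · rintro ⟨z, hz, hd⟩
          exact ⟨refl z, hz, by rwa [refl.isometry.dist_eq]⟩
        · rintro ⟨z, hz, hd⟩
          refine ⟨refl.symm z, by simpa [hK'] using hz, ?_⟩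
          rw [← refl.isometry.dist_eq]
          simpa using hd
      rw [this, (refl_mp μ).measure_preimage isOpen_thickening.measurableSet.nullMeasurableSet]

end Pool.Agent.H65.EF
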