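import Pool.Agent.H65.EF.Basic

set_option autoImplicit false

/-!
# Expanding fronts: the volume of a shell, and of the intersection of two fronts
-/

open MeasureTheory Set Metric
open scoped ENNReal NNReal Pointwise RealInnerProductSpace

namespace Pool.Agent.H65.EF

variable {V : Type*} [NormedAddCommGroup V] [InnerProductSpace ℝ V] [FiniteDimensional ℝ V]
  [MeasurableSpace V] [BorelSpace V] (μ : Measure V) [μ.IsAddHaarMeasure]

/-- convex bodies in a ball -/
structure Body (M : ℝ) (Z : Set V) : Prop where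
  compact : IsCompact Z
  convex : Convex ℝ Z
  nonempty : Z.Nonempty
  sub : ∀ z ∈ Z, ‖z‖ ≤ M

omit [FiniteDimensional ℝ V] [MeasurableSpace V] [BorelSpace V] in
theorem infDist_homothety {M : ℝ} {Z : Set V} (hZ : Body M Z) {z₀ : V} (h0 : z₀ ∈ Z) {ε : ℝ}
    (h1 : 0 ≤ ε) (h2 : ε ≤ 1) (y : V) :
    infDist (AffineMap.homothety z₀ (1 - ε) y) Z ≤ (1 - ε) * infDist y Z := by
  obtain ⟨p, hp, hd⟩ := hZ.compact.exists_infDist_eq_dist hZ.nonempty y
  have hq : AffineMap.homothety z₀ (1 - ε) p ∈ Z := by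
    have := hZ.convex h0 hp h1 (by linarith : 0 ≤ 1 - ε) (by ring)
    convert this using 1
    rw [AffineMap.homothety_apply]
    simp only [vsub_eq_sub, vadd_eq_add, smul_sub, sub_smul, one_smul]
    abel
  refine (infDist_le_dist_of_mem hq).trans ?_
  rw [hd, dist_eq_norm, dist_eq_norm, AffineMap.homothety_apply, AffineMap.homothety_apply]
  simp only [vsub_eq_sub, vadd_eq_add]
  rw [show (1 - ε) • (y - z₀) + z₀ - ((1 - ε) • (p - z₀) + z₀) = (1 - ε) • (y - p) by
    simp only [smul_sub]; abel, norm_smul, Real.norm_of_nonneg (by linarith)]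

theorem shell_le {M r δ : ℝ} {Z : Set V} (hZ : Body M Z) (hr : 0 < r) (hδ : 0 < δ)
    (hδr : δ ≤ r / 2) :
    μ {y | |infDist y Z - r| ≤ δ} ≤
      ENNReal.ofReal (Module.finrank ℝ V * (3 * δ / r)) * μ (closedBall 0 (M + 2 * r)) := by
  obtain ⟨z₀, h0⟩ := hZ.nonempty
  set P : Set V := {y | infDist y Z ≤ r + δ} with hP
  set ε : ℝ := 3 * δ / (r + δ) with hε
  have hrδ : 0 < r + δ := by linarith
  have hε0 : 0 ≤ ε := by positivity
  have hε1 : ε ≤ 1 := by
    rw [hε, div_le_one hrδ]; linarith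
  set H : Set V := AffineMap.homothety z₀ (1 - ε) '' P with hH
  set S : Set V := {y | |infDist y Z - r| ≤ δ} with hS
  have hSm : MeasurableSet S := by
    refine IsClosed.measurableSet ?_
    exact isClosed_le ((continuous_infDist_pt Z).sub continuous_const).abs continuous_const
  have hdisj : Disjoint H S := by
    rw [Set.disjoint_left]
    rintro _ ⟨y, hy, rfl⟩ hy2
    have h1 := infDist_homothety hZ h0 hε0 hε1 y
    have h2 : (1 - ε) * infDist y Z ≤ (1 - ε) * (r + δ) :=
      mul_le_mul_of_nonneg_left hy (by linarith)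
    have h3 : (1 - ε) * (r + δ) = r - 2 * δ := by
      rw [hε]; field_simp; ring
    have h4 := (abs_le.1 (show |infDist (AffineMap.homothety z₀ (1 - ε) y) Z - r| ≤ δ from hy2)).1
    linarith
  have hsubP : S ⊆ P := by
    intro y hy
    have := (abs_le.1 (show |infDist y Z - r| ≤ δ from hy)).2
    change infDist y Z ≤ r + δ
    linarith
  have hHP : H ⊆ P := by
    rintro _ ⟨y, hy, rfl⟩
    change infDist _ Z ≤ r + δ
    have h1 := infDist_homothety hZ h0 hε0 hε1 y
    have h5 : (1 - ε) * infDist y Z ≤ 1 * infDist y Z :=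
      mul_le_mul_of_nonneg_right (by linarith) infDist_nonneg
    have h6 : infDist y Z ≤ r + δ := hy
    linarith
  have hPball : P ⊆ closedBall 0 (M + 2 * r) := by
    intro y hy
    obtain ⟨p, hp, hd⟩ := hZ.compact.exists_infDist_eq_dist hZ.nonempty y
    have h6 : infDist y Z ≤ r + δ := hy
    rw [mem_closedBall, dist_zero_right]
    have h7 : ‖y‖ ≤ ‖y - p‖ + ‖p‖ := by
      simpa using norm_add_le (y - p) p
    rw [hd, dist_eq_norm] at h6
    have := hZ.sub p hp
    linarith
  have hfin : μ P ≠ ∞ := by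
    refine ne_top_of_le_ne_top ?_ (measure_mono hPball)
    exact (isCompact_closedBall (0 : V) _).measure_lt_top.ne
  have hHμ : μ H = ENNReal.ofReal ((1 - ε) ^ Module.finrank ℝ V) * μ P := by
    rw [hH, Measure.addHaar_image_homothety, abs_of_nonneg]
    exact pow_nonneg (by linarith) _
  have key : μ H + μ S ≤ μ P := by
    rw [← measure_union hdisj hSm]
    exact measure_mono (union_subset hHP hsubP)
  have hpow1 : (1 - ε) ^ Module.finrank ℝ V ≤ 1 := pow_le_one₀ (by linarith) (by linarith)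
  have hpow0 : 0 ≤ (1 - ε) ^ Module.finrank ℝ V := pow_nonneg (by linarith) _
  have key2 : μ S ≤ ENNReal.ofReal (1 - (1 - ε) ^ Module.finrank ℝ V) * μ P := by
    have e : μ P = ENNReal.ofReal ((1 - ε) ^ Module.finrank ℝ V) * μ P +
        ENNReal.ofReal (1 - (1 - ε) ^ Module.finrank ℝ V) * μ P := by
      rw [← add_mul, ← ENNReal.ofReal_add hpow0 (by linarith)]
      simp
    rw [hHμ] at key
    conv at key => rhs; rw [e]
    exact (ENNReal.add_le_add_iff_left (ENNReal.mul_ne_top ENNReal.ofReal_ne_top hfin)).1 key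
  refine key2.trans ?_
  gcongr
  have hB : 1 + (Module.finrank ℝ V : ℝ) * (-ε) ≤ (1 + -ε) ^ Module.finrank ℝ V :=
    one_add_mul_le_pow (by linarith) _
  have hε3 : ε ≤ 3 * δ / r := by
    rw [hε]
    gcongr
    linarith
  have : (Module.finrank ℝ V : ℝ) * ε ≤ Module.finrank ℝ V * (3 * δ / r) := by gcongr
  have e2 : (1 + -ε) = 1 - ε := by ring
  rw [e2] at hB
  linarith

section normal

/-- the vector from the nearest point of `Z` to `x` -/
noncomputable def wv (Z : Set V) (x : V) : V := by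
  classical
  exact if h : ∃ p w : V, Nor Z p w ∧ x = p + w then h.choose_spec.choose else 0

omit [FiniteDimensional ℝ V] [MeasurableSpace V] [BorelSpace V] in
theorem wv_spec {M : ℝ} {Z : Set V} (hZ : Body M Z) (x : V) : Nor Z (x - wv Z x) (wv Z x) := by
  classical
  have h := exists_nor hZ.compact hZ.convex hZ.nonempty x
  have hs := h.choose_spec.choose_spec
  have hw : wv Z x = h.choose_spec.choose := by
    unfold wv
    rw [dif_pos h]
  rw [hw]
  have hp : x - h.choose_spec.choose = h.choose := by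
    have := hs.2
    rw [sub_eq_iff_eq_add]
    exact this
  rw [hp]
  exact hs.1

omit [FiniteDimensional ℝ V] [MeasurableSpace V] [BorelSpace V] in
theorem wv_unique {M : ℝ} {Z : Set V} (hZ : Body M Z) {p w : V} (h : Nor Z p w) :
    wv Z (p + w) = w := by
  have h1 := (wv_spec hZ (p + w)).norm_w_le h
  rw [sub_add_cancel, sub_self, norm_zero] at h1
  exact sub_eq_zero.1 (norm_le_zero_iff.1 h1)

omit [FiniteDimensional ℝ V] [MeasurableSpace V] [BorelSpace V] in
theorem norm_wv {M : ℝ} {Z : Set V} (hZ : Body M Z) (x : V) : ‖wv Z x‖ = infDist x Z := by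
  have := (wv_spec hZ x).infDist
  rw [sub_add_cancel] at this
  exact this.symm

/-- the outer unit normal -/
noncomputable def nv (Z : Set V) (x : V) : V := ‖wv Z x‖⁻¹ • wv Z x

omit [FiniteDimensional ℝ V] [MeasurableSpace V] [BorelSpace V] in
theorem norm_nv_le (Z : Set V) (x : V) : ‖nv Z x‖ ≤ 1 := by
  unfold nv
  rw [norm_smul, norm_inv, norm_norm]
  exact inv_mul_le_one

omit [FiniteDimensional ℝ V] [MeasurableSpace V] [BorelSpace V] in
theorem nv_lip {M : ℝ} {Z : Set V} (hZ : Body M Z) {ρ : ℝ} (hρ : 0 < ρ) {x y : V}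
    (hx : ρ ≤ infDist x Z) (hy : ρ ≤ infDist y Z) : ‖nv Z x - nv Z y‖ ≤ 2 / ρ * ‖x - y‖ := by
  have := nor_unit_lip (wv_spec hZ x) (wv_spec hZ y) hρ (by rwa [norm_wv hZ]) (by rwa [norm_wv hZ])
  rwa [sub_add_cancel, sub_add_cancel] at this

end normal

omit [InnerProductSpace ℝ V] [FiniteDimensional ℝ V] [MeasurableSpace V] [BorelSpace V] in
/-- the `δ`-neighbourhood of the front of speed `u` which starts from `Z` at the time `h`. -/
def front (q₁ q₂ δ : ℝ) (Z : Set V) (u h : ℝ) : Set (V × ℝ) :=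
  {x | x.2 ∈ Icc q₁ q₂ ∧ |infDist x.1 Z - u * (x.2 - h)| ≤ δ}

omit [InnerProductSpace ℝ V] [FiniteDimensional ℝ V] [MeasurableSpace V] [BorelSpace V] in
theorem isClosed_front (q₁ q₂ δ : ℝ) (Z : Set V) (u h : ℝ) : IsClosed (front q₁ q₂ δ Z u h) := by
  have h1 : Continuous fun x : V × ℝ => |infDist x.1 Z - u * (x.2 - h)| := by
    have := (continuous_infDist_pt Z).comp (continuous_fst (X := V) (Y := ℝ))
    exact (this.sub (by fun_prop)).abs
  exact (isClosed_Icc.preimage continuous_snd).inter (isClosed_le h1 continuous_const)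

theorem pair_le {M u u' h h' q₁ q₂ δ : ℝ} {Z Z' : Set V} (hZ : Body M Z) (hZ' : Body M Z')
    (hu : 0 < u) (huu : u < u') (hq : q₁ ≤ q₂) (hr : 0 < u * (q₁ - h)) (hδ : 0 < δ)
    (hδr : δ ≤ u * (q₁ - h) / 2) :
    (μ.prod volume) (front q₁ q₂ δ Z u h ∩ front q₁ q₂ δ Z' u' h') ≤
      ENNReal.ofReal (1 + u + 4 * u * (q₂ - q₁) / (u * (q₁ - h))) ^ (Module.finrank ℝ V + 1) *
        (ENNReal.ofReal (2 * δ / (u' - u)) *
          (ENNReal.ofReal (Module.finrank ℝ V * (3 * δ / (u * (q₁ - h)))) *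
            μ (closedBall 0 (M + 2 * (u * (q₁ - h)))))) := by
  set r₀ : ℝ := u * (q₁ - h) with hr₀
  set C : ℝ := 1 + u + 4 * u * (q₂ - q₁) / r₀ with hC
  have hC0 : 0 ≤ C := by
    have : 0 ≤ 4 * u * (q₂ - q₁) / r₀ := by
      apply div_nonneg _ hr.le
      have : 0 ≤ q₂ - q₁ := by linarith
      positivity
    rw [hC]; linarith
  set S : Set V := {y | |infDist y Z - r₀| ≤ δ} with hS
  set A : Set (V × ℝ) := {x | x.1 ∈ S ∧ x.2 ∈ Icc q₁ q₂ ∧
    |infDist (x.1 + (u * (x.2 - q₁)) • nv Z x.1) Z' - u' * (x.2 - h')| ≤ δ} with hA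
  set Φ : V × ℝ → V × ℝ := fun x => (x.1 + (u * (x.2 - q₁)) • nv Z x.1, x.2) with hΦ
  have hSlow : ∀ x ∈ S, r₀ / 2 ≤ infDist x Z := by
    intro x hx
    have := (abs_le.1 (show |infDist x Z - r₀| ≤ δ from hx)).1
    linarith
  -- the image
  have hsub : front q₁ q₂ δ Z u h ∩ front q₁ q₂ δ Z' u' h' ⊆ Φ '' A := by
    rintro ⟨y, t⟩ ⟨⟨ht, hy⟩, ⟨-, hy'⟩⟩
    simp only at ht hy hy'
    set w := wv Z y with hw
    set p := y - w with hp
    have hnor : Nor Z p w := wv_spec hZ y
    have hyp : y = p + w := by rw [hp]; abel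
    have hρ : ‖w‖ = infDist y Z := norm_wv hZ y
    have hpos : r₀ / 2 ≤ ‖w‖ - u * (t - q₁) := by
      rw [hρ]
      have h1 := (abs_le.1 hy).1
      have h2 : u * (t - h) = u * (t - q₁) + r₀ := by rw [hr₀]; ring
      linarith
    have hut : 0 ≤ u * (t - q₁) := mul_nonneg hu.le (by linarith [ht.1])
    have hwpos : 0 < ‖w‖ := by linarith
    set c : ℝ := (‖w‖ - u * (t - q₁)) / ‖w‖ with hc
    have hcpos : 0 < c := div_pos (by linarith) hwpos
    have hnor' := hnor.smul hcpos.le
    set x : V := p + c • w with hx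
    have hwx : wv Z x = c • w := wv_unique hZ hnor'
    have hncw : ‖c • w‖ = ‖w‖ - u * (t - q₁) := by
      rw [norm_smul, Real.norm_of_nonneg hcpos.le, hc]
      field_simp
    have hnvx : nv Z x = ‖w‖⁻¹ • w := by
      unfold nv
      rw [hwx, smul_smul, norm_smul, Real.norm_of_nonneg hcpos.le]
      congr 1
      field_simp
    have hxi : infDist x Z = ‖w‖ - u * (t - q₁) := by
      rw [← norm_wv hZ x, hwx, hncw]
    have hxy : x + (u * (t - q₁)) • nv Z x = y := by
      rw [hnvx, smul_smul, hx, hyp, add_assoc, ← add_smul, hc]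
      congr 1
      have : ((‖w‖ - u * (t - q₁)) / ‖w‖ + u * (t - q₁) * ‖w‖⁻¹) = 1 := by
        field_simp; ring
      rw [this, one_smul]
    refine ⟨(x, t), ⟨?_, ht, ?_⟩, ?_⟩
    · change |infDist x Z - r₀| ≤ δ
      rw [hxi, hρ]
      have : infDist y Z - u * (t - q₁) - r₀ = infDist y Z - u * (t - h) := by rw [hr₀]; ring
      rw [this]
      exact hy
    · simp only
      rw [hxy]
      exact hy'
    · simp only [hΦ]
      rw [hxy]
  -- Lipschitz
  have hlip : LipschitzOnWith C.toNNReal Φ A := by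
    refine LipschitzOnWith.of_dist_le_mul ?_
    rintro ⟨x, t⟩ ⟨hx, ht, -⟩ ⟨y, s⟩ ⟨hy, hs, -⟩
    simp only at hx ht hy hs
    rw [Real.coe_toNNReal C hC0, Prod.dist_eq, Prod.dist_eq]
    simp only [hΦ]
    have hd1 : dist x y ≤ max (dist x y) (dist t s) := le_max_left _ _
    have hd2 : dist t s ≤ max (dist x y) (dist t s) := le_max_right _ _
    set m := max (dist x y) (dist t s) with hm
    have hm0 : 0 ≤ m := le_trans dist_nonneg hd1
    have hq0 : 0 ≤ q₂ - q₁ := by linarith
    have hC1 : 1 ≤ C := by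
      have : 0 ≤ 4 * u * (q₂ - q₁) / r₀ := by positivity
      rw [hC]; linarith
    refine max_le ?_ ?_
    · rw [dist_eq_norm]
      have e : x + (u * (t - q₁)) • nv Z x - (y + (u * (s - q₁)) • nv Z y) =
          (x - y) + ((u * (t - s)) • nv Z x + (u * (s - q₁)) • (nv Z x - nv Z y)) := by
        rw [smul_sub, show u * (t - s) = u * (t - q₁) - u * (s - q₁) by ring, sub_smul]
        abel
      rw [e]
      have h1 : ‖(u * (t - s)) • nv Z x‖ ≤ u * m := by
        rw [norm_smul, Real.norm_eq_abs, abs_mul, abs_of_pos hu]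
        have := norm_nv_le Z x
        have h2 : |t - s| ≤ m := by rw [← Real.dist_eq]; exact hd2
        calc u * |t - s| * ‖nv Z x‖ ≤ u * m * 1 := by gcongr
          _ = u * m := by ring
      have h2 : ‖(u * (s - q₁)) • (nv Z x - nv Z y)‖ ≤ 4 * u * (q₂ - q₁) / r₀ * m := by
        rw [norm_smul, Real.norm_of_nonneg (mul_nonneg hu.le (by linarith [hs.1]))]
        have h3 := nv_lip hZ (half_pos hr) (hSlow x hx) (hSlow y hy)
        have h4 : ‖x - y‖ ≤ m := by rw [← dist_eq_norm]; exact hd1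
        have h5 : s - q₁ ≤ q₂ - q₁ := by linarith [hs.2]
        calc u * (s - q₁) * ‖nv Z x - nv Z y‖ ≤ u * (q₂ - q₁) * (2 / (r₀ / 2) * m) := by
              gcongr
              exact h3.trans (by gcongr)
          _ = 4 * u * (q₂ - q₁) / r₀ * m := by field_simp; ring
      have h6 : ‖x - y‖ ≤ m := by rw [← dist_eq_norm]; exact hd1
      calc ‖(x - y) + ((u * (t - s)) • nv Z x + (u * (s - q₁)) • (nv Z x - nv Z y))‖
          ≤ ‖x - y‖ + (‖(u * (t - s)) • nv Z x‖ + ‖(u * (s - q₁)) • (nv Z x - nv Z y)‖) :=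
            (norm_add_le _ _).trans (by gcongr; exact norm_add_le _ _)
        _ ≤ m + (u * m + 4 * u * (q₂ - q₁) / r₀ * m) := by gcongr
        _ = C * m := by rw [hC]; ring
    · calc dist t s ≤ 1 * m := by rw [one_mul]; exact hd2
        _ ≤ C * m := by gcongr
  -- `A` is closed
  have hScl : IsClosed S :=
    isClosed_le ((continuous_infDist_pt Z).sub continuous_const).abs continuous_const
  have hnvc : ContinuousOn (fun x : V × ℝ => nv Z x.1) (Prod.fst ⁻¹' S) := by
    have h1 : LipschitzOnWith (2 / (r₀ / 2)).toNNReal (nv Z) S := by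
      refine LipschitzOnWith.of_dist_le_mul ?_
      intro x hx y hy
      rw [dist_eq_norm, dist_eq_norm, Real.coe_toNNReal _ (by positivity)]
      exact nv_lip hZ (half_pos hr) (hSlow x hx) (hSlow y hy)
    exact h1.continuousOn.comp continuous_fst.continuousOn (fun x hx => hx)
  have hAcl : IsClosed A := by
    have hS' : IsClosed ((Prod.fst : V × ℝ → V) ⁻¹' S ∩ Prod.snd ⁻¹' (Icc q₁ q₂)) :=
      (hScl.preimage continuous_fst).inter (isClosed_Icc.preimage continuous_snd)
    have hcont : ContinuousOn (fun x : V × ℝ =>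
        |infDist (x.1 + (u * (x.2 - q₁)) • nv Z x.1) Z' - u' * (x.2 - h')|)
        ((Prod.fst : V × ℝ → V) ⁻¹' S ∩ Prod.snd ⁻¹' (Icc q₁ q₂)) := by
      have h1 : ContinuousOn (fun x : V × ℝ => x.1 + (u * (x.2 - q₁)) • nv Z x.1)
          (Prod.fst ⁻¹' S) := by
        refine continuous_fst.continuousOn.add ?_
        exact ContinuousOn.smul (by fun_prop) hnvc
      have h1' : ContinuousOn (fun x : V × ℝ => x.1 + (u * (x.2 - q₁)) • nv Z x.1)
          ((Prod.fst : V × ℝ → V) ⁻¹' S ∩ Prod.snd ⁻¹' (Icc q₁ q₂)) := h1.mono inter_subset_left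
      have h2 := (continuous_infDist_pt Z').comp_continuousOn h1'
      exact (h2.sub (by fun_prop)).abs
    have := hcont.preimage_isClosed_of_isClosed hS' (isClosed_Iic (a := δ))
    convert this using 1
    ext x
    simp only [hA, Set.mem_ofPred_eq, mem_inter_iff, mem_preimage, mem_Iic]
    tauto
  -- one line
  have hline : ∀ x : V, (volume : Measure ℝ) (Prod.mk x ⁻¹' A) ≤
      S.indicator (fun _ => ENNReal.ofReal (2 * δ / (u' - u))) x := by
    intro x
    by_cases hx : x ∈ S
    swap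
    · rw [indicator_of_notMem hx]
      have : (Prod.mk x ⁻¹' A) = ∅ := by
        ext t
        simp only [hA, mem_preimage, Set.mem_ofPred_eq, mem_empty_iff_false, iff_false]
        exact fun hh => hx hh.1
      rw [this, measure_empty]
    rw [indicator_of_mem hx]
    refine (Real.volume_le_diam _).trans ?_
    have hlt : ∀ t ∈ (Prod.mk x ⁻¹' A), ∀ s ∈ (Prod.mk x ⁻¹' A), t ≤ s →
        s - t ≤ 2 * δ / (u' - u) := by
      rintro t ⟨-, ht, ht2⟩ s ⟨-, hs, hs2⟩ hts
      simp only at ht ht2 hs hs2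
      rw [le_div_iff₀ (by linarith)]
      have h1 : infDist (x + (u * (s - q₁)) • nv Z x) Z' ≤
          infDist (x + (u * (t - q₁)) • nv Z x) Z' + u * (s - t) := by
        refine (infDist_le_infDist_add_dist (y := x + (u * (t - q₁)) • nv Z x)).trans ?_
        gcongr
        rw [dist_eq_norm]
        rw [show x + (u * (s - q₁)) • nv Z x - (x + (u * (t - q₁)) • nv Z x) =
          (u * (s - t)) • nv Z x by
            rw [show u * (s - t) = u * (s - q₁) - u * (t - q₁) by ring, sub_smul]; abel,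
          norm_smul, Real.norm_of_nonneg (mul_nonneg hu.le (by linarith))]
        exact mul_le_of_le_one_right (mul_nonneg hu.le (by linarith)) (norm_nv_le Z x)
      have h2 := (abs_le.1 ht2).2
      have h3 := (abs_le.1 hs2).1
      nlinarith
    refine Metric.ediam_le ?_
    intro t ht s hs
    rw [edist_dist]
    refine ENNReal.ofReal_le_ofReal ?_
    rcases le_total t s with hts | hts
    · rw [dist_comm, Real.dist_eq, abs_of_nonneg (by linarith)]
      exact hlt t ht s hs hts
    · rw [Real.dist_eq, abs_of_nonneg (by linarith)]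
      exact hlt s hs t ht hts
  have hAμ : (μ.prod volume) A ≤ ENNReal.ofReal (2 * δ / (u' - u)) * μ S := by
    rw [Measure.prod_apply hAcl.measurableSet]
    calc ∫⁻ x, (volume : Measure ℝ) (Prod.mk x ⁻¹' A) ∂μ
        ≤ ∫⁻ x, S.indicator (fun _ => ENNReal.ofReal (2 * δ / (u' - u))) x ∂μ :=
          lintegral_mono hline
      _ = _ := by
          rw [lintegral_indicator hScl.measurableSet, setLIntegral_const]
  have hfr : Module.finrank ℝ (V × ℝ) = Module.finrank ℝ V + 1 := by
    rw [Module.finrank_prod, Module.finrank_self]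
  calc (μ.prod volume) (front q₁ q₂ δ Z u h ∩ front q₁ q₂ δ Z' u' h')
      ≤ (μ.prod volume) (Φ '' A) := measure_mono hsub
    _ ≤ (C.toNNReal : ℝ≥0∞) ^ (Module.finrank ℝ (V × ℝ)) * (μ.prod volume) A :=
        vol_image_le (μ.prod volume) hlip
    _ ≤ _ := by
        rw [hfr]
        change ENNReal.ofReal C ^ (Module.finrank ℝ V + 1) * _ ≤ _
        gcongr
        refine hAμ.trans ?_
        gcongr
        exact shell_le μ hZ hr hδ hδr

end Pool.Agent.H65.EF
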