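import Pool.Agent.H65.EF.Mink

set_option autoImplicit false

/-!
# Expanding fronts: measurable sets of slopes
-/

open MeasureTheory Set Metric
open scoped ENNReal NNReal Pointwise RealInnerProductSpace

namespace Pool.Agent.H65.EF

variable {V : Type*} [NormedAddCommGroup V] [InnerProductSpace ℝ V] [FiniteDimensional ℝ V]
  [MeasurableSpace V] [BorelSpace V] (μ : Measure V) [μ.IsAddHaarMeasure]

theorem polar [Nontrivial V] {D : Set V} (hDm : MeasurableSet D) (hD : μ D ≠ 0) :
    volume {u : ℝ | 0 < u ∧ μ (cone (D ∩ sphere 0 u)) ≠ 0} ≠ 0 := by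
  intro hnull
  apply hD
  set S : Set V := {0}ᶜ with hS
  set Φ := homeomorphUnitSphereProd V
  have mp := μ.measurePreserving_homeomorphUnitSphereProd
  set E : Set (sphere (0 : V) 1 × Ioi (0 : ℝ)) := Φ.symm ⁻¹' ((↑) ⁻¹' D) with hE
  have hDS : MeasurableSet ((↑) ⁻¹' D : Set S) := measurable_subtype_coe hDm
  have hEm : MeasurableSet E := Φ.symm.measurable hDS
  have h1 : (μ.toSphere.prod (Measure.volumeIoiPow (Module.finrank ℝ V - 1))) E = 0 := by
    rw [Measure.prod_apply_symm hEm, lintegral_eq_zero_iff (measurable_measure_prodMk_right hEm)]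
    have hac : Measure.volumeIoiPow (Module.finrank ℝ V - 1) ≪
        Measure.comap Subtype.val (volume : Measure ℝ) := withDensity_absolutelyContinuous _ _
    refine hac.ae_le ?_
    change ∀ᵐ r ∂(Measure.comap Subtype.val (volume : Measure ℝ)), _ = _
    rw [ae_iff]
    have hsub : {r : Ioi (0 : ℝ) | ¬ (μ.toSphere ((fun x => (x, r)) ⁻¹' E) =
        (0 : Ioi (0 : ℝ) → ℝ≥0∞) r)} ⊆
        (↑) ⁻¹' {u : ℝ | 0 < u ∧ μ (cone (D ∩ sphere 0 u)) ≠ 0} := by
      intro r hr
      refine ⟨r.2, fun h0 => hr ?_⟩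
      have hr0 : (0 : ℝ) < r := r.2
      have hslice : MeasurableSet ((fun x => (x, r)) ⁻¹' E : Set (sphere (0 : V) 1)) :=
        measurable_prodMk_right hEm
      rw [Pi.zero_apply, μ.toSphere_apply' hslice]
      have : μ (Ioo (0 : ℝ) 1 • ((↑) '' ((fun x => (x, r)) ⁻¹' E : Set (sphere (0 : V) 1)))) = 0 := by
        have hsub2 : Ioo (0 : ℝ) 1 • ((↑) '' ((fun x => (x, r)) ⁻¹' E : Set (sphere (0 : V) 1))) ⊆
            (r : ℝ)⁻¹ • cone (D ∩ sphere 0 (r : ℝ)) := by
          rintro _ ⟨c, hc, _, ⟨ω, hω, rfl⟩, rfl⟩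
          refine ⟨c • ((r : ℝ) • (ω : V)), ⟨(r : ℝ) • (ω : V), ⟨?_, ?_⟩, c, ⟨hc.1, hc.2.le⟩, rfl⟩, ?_⟩
          · have : (Φ.symm (ω, r) : V) ∈ D := hω
            simpa [Φ] using this
          · rw [mem_sphere, dist_zero_right, norm_smul, Real.norm_of_nonneg hr0.le]
            have := ω.2
            rw [mem_sphere, dist_zero_right] at this
            rw [this, mul_one]
          · simp only [smul_smul]
            congr 1
            field_simp
        refine measure_mono_null hsub2 ?_
        rw [Measure.addHaar_smul, h0, mul_zero]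
      rw [this, mul_zero]
    refine measure_mono_null hsub ?_
    rw [comap_subtype_coe_apply measurableSet_Ioi]
    refine measure_mono_null ?_ hnull
    exact image_preimage_subset _ _
  rw [← mp.measure_preimage hEm.nullMeasurableSet] at h1
  have h2 : Φ ⁻¹' E = ((↑) ⁻¹' D : Set S) := by
    ext x
    simp [hE, Φ, hS]
  rw [h2, comap_subtype_coe_apply (measurableSet_singleton _).compl] at h1
  have h3 : D ⊆ ((↑) '' ((↑) ⁻¹' D : Set S)) ∪ {0} := by
    intro x hx
    by_cases h : x = 0
    · right; exact h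
    · left; exact ⟨⟨x, h⟩, hx, rfl⟩
  refine measure_mono_null h3 (measure_union_null h1 (measure_singleton _))

end Pool.Agent.H65.EF
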