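import Pool.Agent.H65.EF.Core

set_option autoImplicit false

/-!
# Expanding fronts: reduction to uniform data
-/

open MeasureTheory Set Metric
open scoped ENNReal NNReal Pointwise RealInnerProductSpace

namespace Pool.Agent.H65.EF

variable {V : Type*} [NormedAddCommGroup V] [InnerProductSpace ℝ V]

/-- the closed convex hull of the points `a v`, `v ∈ D` -/
def hull (a : V → V) (D : Set V) : Set V := closure (convexHull ℝ (a '' D))

theorem hull_sub {a : V → V} {D : Set V} {F : Set V} (h1 : IsClosed F) (h2 : Convex ℝ F)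
    (h3 : ∀ v ∈ D, a v ∈ F) : hull a D ⊆ F := by
  refine closure_minimal (convexHull_min ?_ h2) h1
  rintro _ ⟨v, hv, rfl⟩
  exact h3 v hv

theorem mem_hull {a : V → V} {D : Set V} {v : V} (hv : v ∈ D) : a v ∈ hull a D :=
  subset_closure (subset_convexHull ℝ _ ⟨v, hv, rfl⟩)

theorem body_hull [FiniteDimensional ℝ V] {M : ℝ} {a : V → V} {D : Set V} (hne : D.Nonempty)
    (hb : ∀ v ∈ D, ‖a v‖ ≤ M) : Body M (hull a D) := by
  have hsub : hull a D ⊆ closedBall 0 M := by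
    refine hull_sub isClosed_closedBall (convex_closedBall _ _) fun v hv => ?_
    rw [mem_closedBall, dist_zero_right]
    exact hb v hv
  refine ⟨?_, ?_, ?_, ?_⟩
  · exact Metric.isCompact_of_isClosed_isBounded isClosed_closure
      (isBounded_closedBall.subset hsub)
  · exact (convex_convexHull ℝ _).closure
  · obtain ⟨v, hv⟩ := hne
    exact ⟨a v, mem_hull hv⟩
  · intro z hz
    have := hsub hz
    rwa [mem_closedBall, dist_zero_right] at this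

theorem nor_hull {a : V → V} {D : Set V} {v : V} (hv : v ∈ D)
    (h : ∀ w ∈ D, 0 ≤ ⟪v, a v - a w⟫) : Nor (hull a D) (a v) v := by
  refine ⟨mem_hull hv, fun z hz => ?_⟩
  have hsub : hull a D ⊆ {z | ⟪v, z⟫ ≤ ⟪v, a v⟫} := by
    refine hull_sub ?_ ?_ ?_
    · exact isClosed_le (by fun_prop) continuous_const
    · have : IsLinearMap ℝ fun z : V => ⟪v, z⟫ :=
        ⟨fun x y => inner_add_right _ _ _, fun c x => real_inner_smul_right _ _ _⟩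
      exact convex_halfSpace_le this _
    · intro w hw
      have := h w hw
      rw [inner_sub_right] at this
      change ⟪v, a w⟫ ≤ ⟪v, a v⟫
      linarith
  have h2 : ⟪v, z⟫ ≤ ⟪v, a v⟫ := hsub hz
  rw [inner_sub_right]
  linarith

variable [FiniteDimensional ℝ V] [MeasurableSpace V] [BorelSpace V] (μ : Measure V)
  [μ.IsAddHaarMeasure]


/-- the part of `D` with uniform data -/
def piece (D : Set V) (a : V → V) (h : ℝ → ℝ) (K : Set (V × ℝ)) (i : ℚ × ℚ × ℕ) (u : ℝ) : Set V :=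
  {v ∈ D ∩ sphere 0 u | ‖a v‖ ≤ i.2.2 ∧
    ∀ t ∈ Icc (i.1 : ℝ) (i.2.1 : ℝ), (a v + (t - h u) • v, t) ∈ K}

/-- the speeds with uniform data -/
def speeds (D : Set V) (a : V → V) (h : ℝ → ℝ) (K : Set (V × ℝ)) (i : ℚ × ℚ × ℕ) : Set ℝ :=
  {u | 1 ≤ (i.2.2 : ℝ) ∧ (i.1 : ℝ) < i.2.1 ∧ (1 / (i.2.2 : ℝ) ≤ u ∧ u ≤ i.2.2) ∧
    (1 / (i.2.2 : ℝ) ≤ i.1 - h u ∧ i.2.1 - h u ≤ i.2.2) ∧
    ENNReal.ofReal (1 / (i.2.2 : ℝ)) ≤ μ (cone (piece D a h K i u))}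

omit [FiniteDimensional ℝ V] [BorelSpace V] [μ.IsAddHaarMeasure] in
theorem exists_piece {D : Set V} {a : V → V} {h : ℝ → ℝ} {K : Set (V × ℝ)}
    (hK : ∀ v ∈ D, ∃ α β : ℝ, h ‖v‖ ≤ α ∧ α < β ∧
      ∀ t ∈ Ioo α β, (a v + (t - h ‖v‖) • v, t) ∈ K) {u : ℝ} (hu : 0 < u)
    (hpos : μ (cone (D ∩ sphere 0 u)) ≠ 0) : ∃ i, u ∈ speeds μ D a h K i := by
  classical
  -- one of the pieces is not null
  have h1 : ∃ i : ℚ × ℚ × ℕ, h u < i.1 ∧ (i.1 : ℝ) < i.2.1 ∧ μ (cone (piece D a h K i u)) ≠ 0 := by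
    by_contra hcon
    push Not at hcon
    refine hpos ?_
    set W : ℚ × ℚ × ℕ → Set V := fun i => if h u < i.1 ∧ (i.1 : ℝ) < i.2.1 then
      cone (piece D a h K i u) else ∅ with hW
    have hW0 : μ (⋃ i, W i) = 0 := by
      refine measure_iUnion_null fun i => ?_
      simp only [hW]
      split_ifs with h3
      · exact hcon i h3.1 h3.2
      · exact measure_empty
    refine measure_mono_null ?_ hW0
    rintro x ⟨v, ⟨hvD, hvu⟩, c, hc, rfl⟩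
    have hvu' : ‖v‖ = u := by rwa [mem_sphere, dist_zero_right] at hvu
    obtain ⟨α, β, hα, hαβ, hseg⟩ := hK v hvD
    obtain ⟨q₁, hq1, hq1'⟩ := exists_rat_btwn hαβ
    obtain ⟨q₂, hq2, hq2'⟩ := exists_rat_btwn hq1'
    obtain ⟨N, hN⟩ := exists_nat_ge ‖a v‖
    refine mem_iUnion.2 ⟨(q₁, q₂, N), ?_⟩
    have hc1 : h u < (q₁ : ℝ) ∧ (q₁ : ℝ) < q₂ := ⟨by rw [← hvu']; linarith, hq2⟩
    simp only [hW]
    rw [if_pos hc1]
    refine ⟨v, ⟨⟨hvD, hvu⟩, hN, ?_⟩, c, hc, rfl⟩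
    intro t ht
    rw [← hvu']
    exact hseg t ⟨lt_of_lt_of_le hq1 ht.1, lt_of_le_of_lt ht.2 hq2'⟩
  obtain ⟨⟨q₁, q₂, N₀⟩, hq1, hq2, hne⟩ := h1
  simp only at hq1 hq2 hne
  obtain ⟨n₁, hn₁⟩ := ENNReal.exists_inv_nat_lt hne
  obtain ⟨n₂, hn₂⟩ := exists_nat_ge (1 / u)
  obtain ⟨n₃, hn₃⟩ := exists_nat_ge u
  obtain ⟨n₄, hn₄⟩ := exists_nat_ge (1 / (q₁ - h u))
  obtain ⟨n₅, hn₅⟩ := exists_nat_ge (q₂ - h u)
  set N : ℕ := N₀ + n₁ + n₂ + n₃ + n₄ + n₅ + 1 with hN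
  have e0 : N₀ ≤ N := by omega
  have e1 : n₁ ≤ N := by omega
  have e2 : (n₂ : ℝ) ≤ N := by exact_mod_cast (by omega : n₂ ≤ N)
  have e3 : (n₃ : ℝ) ≤ N := by exact_mod_cast (by omega : n₃ ≤ N)
  have e4 : (n₄ : ℝ) ≤ N := by exact_mod_cast (by omega : n₄ ≤ N)
  have e5 : (n₅ : ℝ) ≤ N := by exact_mod_cast (by omega : n₅ ≤ N)
  have e6 : 1 ≤ (N : ℝ) := by exact_mod_cast (by omega : 1 ≤ N)
  have hN0 : 0 < (N : ℝ) := by linarith
  have hq : 0 < q₁ - h u := by linarith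
  refine ⟨(q₁, q₂, N), e6, hq2, ⟨?_, hn₃.trans e3⟩, ⟨?_, hn₅.trans e5⟩, ?_⟩
  · rw [div_le_iff₀ hN0]
    have := hn₂.trans e2
    rw [div_le_iff₀ hu] at this
    linarith
  · rw [div_le_iff₀ hN0]
    have := hn₄.trans e4
    rw [div_le_iff₀ hq] at this
    simp only
    linarith
  · have hmono : cone (piece D a h K (q₁, q₂, N₀) u) ⊆ cone (piece D a h K (q₁, q₂, N) u) := by
      refine cone_mono ?_
      rintro v ⟨hv, hva, hvK⟩
      exact ⟨hv, hva.trans (by exact_mod_cast e0), hvK⟩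
    have h2 : ENNReal.ofReal (1 / (N : ℝ)) ≤ (n₁ : ℝ≥0∞)⁻¹ := by
      rw [one_div, ENNReal.ofReal_inv_of_pos hN0, ENNReal.ofReal_natCast]
      exact ENNReal.inv_le_inv.2 (by exact_mod_cast e1)
    exact h2.trans (hn₁.le.trans (measure_mono hmono))

theorem main_unif {D : Set V} {a : V → V} {h : ℝ → ℝ} {K : Set (V × ℝ)}
    (hmono : ∀ v ∈ D, ∀ w ∈ D, ‖v‖ = ‖w‖ → 0 ≤ ⟪v, a v - a w⟫)
    (hK : ∀ v ∈ D, ∃ α β : ℝ, h ‖v‖ ≤ α ∧ α < β ∧
      ∀ t ∈ Ioo α β, (a v + (t - h ‖v‖) • v, t) ∈ K)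
    (hpos : volume {u : ℝ | 0 < u ∧ μ (cone (D ∩ sphere 0 u)) ≠ 0} ≠ 0) :
    ∃ (M q₁ q₂ : ℝ) (U : Set ℝ) (Z : ℝ → Set V) (D' : ℝ → Set V),
      Unif μ M q₁ q₂ U Z h D' a ∧ volume U ≠ 0 ∧
      ∀ u ∈ U, ∀ v ∈ D' u, ∀ t ∈ Icc q₁ q₂, (a v + (t - h u) • v, t) ∈ K := by
  classical
  have h1 : ∃ i, volume (speeds μ D a h K i) ≠ 0 := by
    by_contra hcon
    push Not at hcon
    refine hpos (measure_mono_null ?_ (measure_iUnion_null hcon))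
    rintro u ⟨hu, hu2⟩
    obtain ⟨i, hi⟩ := exists_piece μ hK hu hu2
    exact mem_iUnion.2 ⟨i, hi⟩
  obtain ⟨i, hi⟩ := h1
  have hne : ∀ u ∈ speeds μ D a h K i, (piece D a h K i u).Nonempty := by
    rintro u ⟨h1, -, -, -, hu⟩
    by_contra hcon
    rw [not_nonempty_iff_eq_empty] at hcon
    rw [hcon] at hu
    have : cone (∅ : Set V) = ∅ := by
      ext x
      simp [cone]
    rw [this, measure_empty, nonpos_iff_eq_zero, ENNReal.ofReal_eq_zero] at hu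
    have : 0 < 1 / (i.2.2 : ℝ) := by positivity
    linarith
  obtain ⟨u₀, hu₀⟩ := nonempty_of_measure_ne_zero hi
  refine ⟨i.2.2, i.1, i.2.1, speeds μ D a h K i, fun u => hull a (piece D a h K i u),
    piece D a h K i, ⟨hu₀.1, hu₀.2.1, ?_, ?_, ?_, ?_, ?_, ?_⟩, hi, ?_⟩
  · intro u hu; exact hu.2.2.1
  · intro u hu; exact hu.2.2.2.1
  · intro u hu
    exact body_hull (hne u hu) fun v hv => hv.2.1
  · intro u hu v hv
    have := hv.1.2
    rwa [mem_sphere, dist_zero_right] at this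
  · intro u hu v hv
    refine nor_hull hv fun w hw => hmono v hv.1.1 w hw.1.1 ?_
    have h1 := hv.1.2
    have h2 := hw.1.2
    rw [mem_sphere, dist_zero_right] at h1 h2
    rw [h1, h2]
  · intro u hu; exact hu.2.2.2.2
  · intro u hu v hv t ht
    exact hv.2.2 t ht

/-- the main theorem, outgoing lines -/
theorem main_pos (hk : 1 ≤ Module.finrank ℝ V) {D : Set V} {a : V → V} {h : ℝ → ℝ}
    {K : Set (V × ℝ)}
    (hmono : ∀ v ∈ D, ∀ w ∈ D, ‖v‖ = ‖w‖ → 0 ≤ ⟪v, a v - a w⟫)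
    (hK : ∀ v ∈ D, ∃ α β : ℝ, h ‖v‖ ≤ α ∧ α < β ∧
      ∀ t ∈ Ioo α β, (a v + (t - h ‖v‖) • v, t) ∈ K)
    (hpos : volume {u : ℝ | 0 < u ∧ μ (cone (D ∩ sphere 0 u)) ≠ 0} ≠ 0) {s : ℝ} (hs : 0 < s)
    (hs' : s < Module.finrank ℝ V + 1) : Measure.hausdorffMeasure s K ≠ 0 := by
  obtain ⟨M, q₁, q₂, U, Z, D', H, hU, hK'⟩ := main_unif μ hmono hK hpos
  exact core μ hk H hU hK' hs hs'

end Pool.Agent.H65.EF
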