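import Pool.Agent.H65.EF.Polar

set_option autoImplicit false

/-!
# Expanding fronts: from `ℝ^k × ℝ` to `ℝ^(k+1)`
-/

open MeasureTheory Set Metric
open scoped ENNReal NNReal Pointwise RealInnerProductSpace

namespace Pool.Agent.H65.EF

variable {k : ℕ}

/-- the point `(y, t)` of `ℝ^(k+1)` -/
noncomputable def pt (y : EuclideanSpace ℝ (Fin k)) (t : ℝ) : EuclideanSpace ℝ (Fin (k + 1)) :=
  WithLp.toLp 2 (Fin.snoc (α := fun _ => ℝ) (fun i => y i) t)

/-- `ℝ^k × ℝ ≃ ℝ^(k+1)` -/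
noncomputable def ptL : (EuclideanSpace ℝ (Fin k) × ℝ) ≃ₗ[ℝ] EuclideanSpace ℝ (Fin (k + 1)) where
  toFun p := pt p.1 p.2
  map_add' p q := by
    ext i
    refine Fin.lastCases ?_ (fun j => ?_) i
    · simp [pt]
    · simp [pt]
  map_smul' c p := by
    ext i
    refine Fin.lastCases ?_ (fun j => ?_) i
    · simp [pt]
    · simp [pt]
  invFun z := (WithLp.toLp 2 (fun i => z i.castSucc), z (Fin.last k))
  left_inv p := by
    refine Prod.ext ?_ ?_
    · ext i; simp [pt]
    · simp [pt]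
  right_inv z := by
    ext i
    refine Fin.lastCases ?_ (fun j => ?_) i
    · simp [pt]
    · simp [pt]

/-- `ℝ^k × ℝ ≃ ℝ^(k+1)` -/
noncomputable def ptE : (EuclideanSpace ℝ (Fin k) × ℝ) ≃L[ℝ] EuclideanSpace ℝ (Fin (k + 1)) :=
  ptL.toContinuousLinearEquiv

theorem ptE_apply (p : EuclideanSpace ℝ (Fin k) × ℝ) : ptE p = pt p.1 p.2 := rfl

theorem pt_add (y y' : EuclideanSpace ℝ (Fin k)) (t t' : ℝ) :
    pt y t + pt y' t' = pt (y + y') (t + t') := by
  have := (ptL (k := k)).map_add (y, t) (y', t')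
  exact this.symm

theorem pt_smul (c : ℝ) (y : EuclideanSpace ℝ (Fin k)) (t : ℝ) :
    c • pt y t = pt (c • y) (c * t) := by
  have := (ptL (k := k)).map_smul c (y, t)
  exact this.symm

theorem le_dimH_of_forall {X : Type*} [MetricSpace X] [MeasurableSpace X] [BorelSpace X]
    {K : Set X} {n : ℕ} (h : ∀ s : ℝ, 0 < s → s < n → Measure.hausdorffMeasure s K ≠ 0) :
    (n : ℝ≥0∞) ≤ dimH K := by
  refine le_of_forall_lt fun c hc => ?_
  obtain ⟨c', rfl⟩ : ∃ c' : ℝ≥0, c = c' :=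
    ⟨c.toNNReal, (ENNReal.coe_toNNReal (ne_top_of_lt hc)).symm⟩
  have hc2 : c' < (n : ℝ≥0) := by exact_mod_cast hc
  obtain ⟨s, hs1, hs2⟩ := exists_between hc2
  have hs0 : (0 : ℝ) < s := by
    have : (0 : ℝ≥0) < s := lt_of_le_of_lt (zero_le) hs1
    exact_mod_cast this
  have h1 := h s hs0 (by exact_mod_cast hs2)
  have h2 := le_dimH_of_hausdorffMeasure_ne_zero h1
  exact lt_of_lt_of_le (by exact_mod_cast hs1) h2

/-- the final form -/
theorem final (hk : 1 ≤ k) (K : Set (EuclideanSpace ℝ (Fin (k + 1))))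
    (D : Set (EuclideanSpace ℝ (Fin k))) (p : EuclideanSpace ℝ (Fin k) → EuclideanSpace ℝ (Fin k))
    (h σ : ℝ → ℝ) (hσ : ∀ u, σ u = 1 ∨ σ u = -1)
    (hp : ∀ v ∈ D, ∀ w ∈ D, ‖v‖ = ‖w‖ → 0 ≤ σ ‖v‖ * ⟪v, p v - p w⟫)
    (hK : ∀ v ∈ D, ∃ α β : ℝ, α < β ∧ ∀ s ∈ Ioo α β, 0 < σ ‖v‖ * s ∧
      pt (p v) (h ‖v‖) + s • pt v 1 ∈ K)
    (hD : (MeasurableSet D ∧ volume D ≠ 0) ∨
      volume {u : ℝ | 0 < u ∧ volume (cone (D ∩ sphere 0 u)) ≠ 0} ≠ 0) :
    dimH K = ((k + 1 : ℕ) : ℝ≥0∞) ∧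
    ∃ c : ℝ, 0 < c ∧ ∀ δ : ℝ, 0 < δ → δ < 1 / 2 →
      ENNReal.ofReal (c / Real.log (1 / δ)) ≤ volume (thickening δ K) := by
  classical
  haveI : Nonempty (Fin k) := ⟨⟨0, hk⟩⟩
  haveI : Nontrivial (EuclideanSpace ℝ (Fin k)) := inferInstance
  have hpos : volume {u : ℝ | 0 < u ∧ volume (cone (D ∩ sphere 0 u)) ≠ 0} ≠ 0 := by
    rcases hD with hD | hD
    · exact polar volume hD.1 hD.2
    · exact hD
  set K' : Set (EuclideanSpace ℝ (Fin k) × ℝ) := ptE ⁻¹' K with hK'
  have hfr : Module.finrank ℝ (EuclideanSpace ℝ (Fin k)) = k := by simp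
  have hK₁ : ∀ v ∈ D, ∃ α β : ℝ, α < β ∧ ∀ t ∈ Ioo α β, 0 < σ ‖v‖ * (t - h ‖v‖) ∧
      (p v + (t - h ‖v‖) • v, t) ∈ K' := by
    intro v hv
    obtain ⟨α, β, hαβ, hseg⟩ := hK v hv
    refine ⟨α + h ‖v‖, β + h ‖v‖, by linarith, fun t ht => ?_⟩
    obtain ⟨h1, h2⟩ := hseg (t - h ‖v‖) ⟨by linarith [ht.1], by linarith [ht.2]⟩
    refine ⟨h1, ?_⟩
    rw [pt_smul, pt_add] at h2
    rw [hK', mem_preimage, ptE_apply]
    convert h2 using 2
    ring
  obtain ⟨m1, c, hc, m2⟩ := main (volume : Measure (EuclideanSpace ℝ (Fin k)))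
    (by rw [hfr]; exact hk) hσ hp hK₁ hpos
  constructor
  · apply le_antisymm
    · calc dimH K ≤ dimH (univ : Set (EuclideanSpace ℝ (Fin (k + 1)))) := dimH_mono (subset_univ _)
        _ = _ := by rw [Real.dimH_univ_eq_finrank]; simp
    · have h1 : dimH K' = dimH K := by
        rw [hK']
        exact ptE.dimH_preimage K
      rw [← h1]
      refine le_dimH_of_forall fun s hs hs' => m1 s hs ?_
      rw [hfr]
      push_cast at hs'
      exact hs'
  · -- volumes
    set ν : Measure (EuclideanSpace ℝ (Fin k) × ℝ) := volume.prod volume with hν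
    have hfrm : Measure.map ptE.symm (volume : Measure (EuclideanSpace ℝ (Fin (k + 1)))) =
        (Measure.addHaarScalarFactor (Measure.map ptE.symm
          (volume : Measure (EuclideanSpace ℝ (Fin (k + 1))))) ν) • ν :=
      Measure.isAddLeftInvariant_eq_smul _ _
    set b := Measure.addHaarScalarFactor (Measure.map ptE.symm
          (volume : Measure (EuclideanSpace ℝ (Fin (k + 1))))) ν with hb
    have hb0 : 0 < b := Measure.addHaarScalarFactor_pos_of_isAddHaarMeasure _ _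
    -- the Lipschitz constant
    obtain ⟨L, hL0, hL⟩ : ∃ L : ℝ, 0 < L ∧ ∀ x y, dist (ptE (k := k) x) (ptE y) ≤ L * dist x y := by
      refine ⟨‖((ptE (k := k)) : (EuclideanSpace ℝ (Fin k) × ℝ) →L[ℝ]
        EuclideanSpace ℝ (Fin (k + 1)))‖ + 1, by positivity, fun x y => ?_⟩
      rw [dist_eq_norm, dist_eq_norm, ← map_sub]
      refine (ContinuousLinearMap.le_opNorm ((ptE (k := k)) : (EuclideanSpace ℝ (Fin k) × ℝ) →L[ℝ]
        EuclideanSpace ℝ (Fin (k + 1))) (x - y)).trans ?_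
      gcongr
      linarith
    have hsub : ∀ δ : ℝ, thickening (δ / (L + 1)) K' ⊆ ptE ⁻¹' thickening δ K := by
      intro δ x hx
      rw [mem_thickening_iff] at hx
      obtain ⟨z, hz, hd⟩ := hx
      rw [mem_preimage, mem_thickening_iff]
      refine ⟨ptE z, hz, lt_of_le_of_lt (hL x z) ?_⟩
      rw [lt_div_iff₀ (by positivity)] at hd
      have := dist_nonneg (x := x) (y := z)
      nlinarith
    have hlogL : 0 ≤ Real.log (L + 1) := Real.log_nonneg (by linarith)
    have hlog2 : 0 < Real.log 2 := Real.log_pos (by norm_num)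
    refine ⟨b * (c / (Real.log (L + 1) / Real.log 2 + 1)), by positivity, fun δ hδ hδ2 => ?_⟩
    have h1 := m2 (δ / (L + 1)) (by positivity) (by
      rw [div_lt_iff₀ (by positivity)]; nlinarith)
    have h2 : ν (ptE ⁻¹' thickening δ K) * b = volume (thickening δ K) := by
      have h3 : Measure.map ptE.symm (volume : Measure (EuclideanSpace ℝ (Fin (k + 1))))
          (ptE ⁻¹' thickening δ K) = volume (thickening δ K) := by
        rw [Measure.map_apply ptE.symm.continuous.measurable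
          (isOpen_thickening.preimage ptE.continuous).measurableSet]
        congr 1
        ext x
        simp
      rw [← h3, hfrm, Measure.smul_apply, ENNReal.smul_def, smul_eq_mul, mul_comm]
    have hLδ : Real.log 2 ≤ Real.log (1 / δ) := by
      apply Real.log_le_log (by norm_num)
      rw [le_div_iff₀ hδ]; linarith
    have h4 : Real.log (1 / (δ / (L + 1))) ≤
        (Real.log (L + 1) / Real.log 2 + 1) * Real.log (1 / δ) := by
      have e : 1 / (δ / (L + 1)) = (L + 1) * (1 / δ) := by field_simp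
      rw [e, Real.log_mul (by positivity) (by positivity)]
      have : Real.log (L + 1) ≤ Real.log (L + 1) / Real.log 2 * Real.log (1 / δ) := by
        rw [div_mul_eq_mul_div, le_div_iff₀ hlog2]
        gcongr
      linarith
    have h5 : 0 < Real.log (1 / (δ / (L + 1))) := by
      apply Real.log_pos
      rw [lt_div_iff₀ (by positivity), one_mul, div_lt_iff₀ (by positivity)]
      linarith
    calc ENNReal.ofReal (b * (c / (Real.log (L + 1) / Real.log 2 + 1)) / Real.log (1 / δ))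
        = ENNReal.ofReal (c / ((Real.log (L + 1) / Real.log 2 + 1) * Real.log (1 / δ))) * b := by
          rw [mul_div_assoc, ENNReal.ofReal_mul b.coe_nonneg, ENNReal.ofReal_coe_nnreal, mul_comm,
            div_div]
      _ ≤ ENNReal.ofReal (c / Real.log (1 / (δ / (L + 1)))) * b := by gcongr
      _ ≤ ν (thickening (δ / (L + 1)) K') * b := by gcongr
      _ ≤ ν (ptE ⁻¹' thickening δ K) * b := by
          gcongr
          exact hsub δ
      _ = _ := h2

end Pool.Agent.H65.EF
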