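import Pool.Agent.H65.EF.Low
import Pool.Agent.H65.EF.L2
import Pool.Agent.H65.EF.Cover

set_option autoImplicit false

/-!
# Expanding fronts: uniform bounds
-/

open MeasureTheory Set Metric
open scoped ENNReal NNReal Pointwise RealInnerProductSpace

namespace Pool.Agent.H65.EF

variable {V : Type*} [NormedAddCommGroup V] [InnerProductSpace ℝ V] [FiniteDimensional ℝ V]
  [MeasurableSpace V] [BorelSpace V] (μ : Measure V) [μ.IsAddHaarMeasure]

theorem single_le {M R r₀ u h q₁ q₂ δ : ℝ} {Z : Set V} (hZ : Body M Z)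
    (hu : 0 < u) (hr : 0 < r₀) (hr0 : r₀ ≤ u * (q₁ - h)) (hR : u * (q₂ - h) ≤ R) (hδ : 0 < δ)
    (hδr : δ ≤ r₀ / 2) :
    (μ.prod volume) (front q₁ q₂ δ Z u h) ≤
      ENNReal.ofReal (q₂ - q₁) * (ENNReal.ofReal (Module.finrank ℝ V * (3 * δ / r₀)) *
        μ (closedBall 0 (M + 2 * R))) := by
  have hcl := isClosed_front q₁ q₂ δ Z u h
  rw [Measure.prod_apply_symm hcl.measurableSet]
  have hline : ∀ t : ℝ, μ ((fun y => (y, t)) ⁻¹' front q₁ q₂ δ Z u h) ≤
      (Icc q₁ q₂).indicator (fun _ => ENNReal.ofReal (Module.finrank ℝ V * (3 * δ / r₀)) *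
        μ (closedBall 0 (M + 2 * R))) t := by
    intro t
    by_cases ht : t ∈ Icc q₁ q₂
    swap
    · rw [indicator_of_notMem ht]
      have : ((fun y : V => (y, t)) ⁻¹' front q₁ q₂ δ Z u h) = ∅ := by
        ext y
        simp only [front, mem_preimage, Set.mem_ofPred_eq, mem_empty_iff_false, iff_false]
        exact fun hh => ht hh.1
      rw [this, measure_empty]
    rw [indicator_of_mem ht]
    have h1 : u * (q₁ - h) ≤ u * (t - h) := mul_le_mul_of_nonneg_left (by linarith [ht.1]) hu.le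
    have h2 : u * (t - h) ≤ u * (q₂ - h) := mul_le_mul_of_nonneg_left (by linarith [ht.2]) hu.le
    have hrt : 0 < u * (t - h) := by linarith
    have h3 := shell_le μ hZ hrt hδ (by linarith)
    refine (measure_mono ?_).trans (h3.trans ?_)
    · rintro y ⟨-, hy⟩
      exact hy
    · gcongr
      · exact hr0.trans h1
      · exact h2.trans hR
  refine (lintegral_mono hline).trans ?_
  rw [lintegral_indicator measurableSet_Icc, setLIntegral_const, Real.volume_Icc, mul_comm]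

/-- the constant -/
noncomputable def C3 (M : ℝ) : ℝ :=
  18 * Module.finrank ℝ V * M ^ 2 * (μ (closedBall (0 : V) (M + 2 * M ^ 2))).toReal *
    (1 + M + 4 * M ^ 2) ^ (Module.finrank ℝ V + 1)

omit [FiniteDimensional ℝ V] [BorelSpace V] [μ.IsAddHaarMeasure] in
theorem C3_nonneg {M : ℝ} (hM : 1 ≤ M) : 0 ≤ C3 μ M := by
  unfold C3
  positivity

theorem pair_unif {M q₁ q₂ δ : ℝ} (hM : 1 ≤ M) (hq : q₁ < q₂) (hδ : 0 < δ)
    (hδM : δ ≤ 1 / (2 * M ^ 2)) {l l' : ℕ} {u u' h h' : ℝ} {Z Z' : Set V} (hZ : Body M Z)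
    (hZ' : Body M Z') (hu : 1 / M ≤ u ∧ u ≤ M) (hu' : 1 / M ≤ u' ∧ u' ≤ M)
    (hh : 1 / M ≤ q₁ - h ∧ q₂ - h ≤ M) (hh' : 1 / M ≤ q₁ - h' ∧ q₂ - h' ≤ M)
    (hl : l * δ ≤ u ∧ u < (l + 1) * δ) (hl' : l' * δ ≤ u' ∧ u' < (l' + 1) * δ) :
    (μ.prod volume) (front q₁ q₂ δ Z u h ∩ front q₁ q₂ δ Z' u' h') ≤
      ENNReal.ofReal (C3 μ M * δ * (1 / (1 + |(l:ℝ) - l'|))) := by
  wlog hll : l ≤ l' generalizing l l' u u' h h' Z Z'
  · rw [inter_comm, abs_sub_comm]
    exact this hZ' hZ hu' hu hh' hh hl' hl (by omega)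
  have hM0 : 0 < M := by linarith
  set k : ℝ := ((Module.finrank ℝ V : ℕ) : ℝ) with hk
  set ω := (μ (closedBall (0 : V) (M + 2 * M ^ 2))).toReal with hω
  have hk0 : 0 ≤ k := Nat.cast_nonneg _
  have hω0 : 0 ≤ ω := ENNReal.toReal_nonneg
  have hωt : μ (closedBall (0 : V) (M + 2 * M ^ 2)) = ENNReal.ofReal ω := by
    rw [hω, ENNReal.ofReal_toReal (isCompact_closedBall (0 : V) _).measure_lt_top.ne]
  have hu0 : 0 < u := lt_of_lt_of_le (by positivity) hu.1
  have hr0 : 1 / M ^ 2 ≤ u * (q₁ - h) := by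
    calc 1 / M ^ 2 = (1 / M) * (1 / M) := by rw [div_mul_div_comm, one_mul, pow_two]
      _ ≤ u * (q₁ - h) := mul_le_mul hu.1 hh.1 (by positivity) hu0.le
  have hR : u * (q₂ - h) ≤ M ^ 2 := by
    rw [pow_two]
    exact mul_le_mul hu.2 hh.2 (by linarith [hh.1, one_div_pos.2 hM0]) hM0.le
  have hqM : q₂ - q₁ ≤ M := by
    have := one_div_pos.2 hM0
    linarith [hh.1, hh.2]
  have hδr : δ ≤ 1 / M ^ 2 / 2 := by
    rw [div_div, mul_comm (M ^ 2)]; exact hδM
  have hM2 : 0 < 1 / M ^ 2 := by positivity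
  have hC1 : 1 ≤ 1 + M + 4 * M ^ 2 := by nlinarith
  have hCM : M ≤ (1 + M + 4 * M ^ 2) ^ (Module.finrank ℝ V + 1) := by
    calc M ≤ 1 + M + 4 * M ^ 2 := by nlinarith
      _ = (1 + M + 4 * M ^ 2) ^ 1 := (pow_one _).symm
      _ ≤ _ := pow_le_pow_right₀ hC1 (by omega)
  have hlab : |(l:ℝ) - l'| = l' - l := by
    have : (l:ℝ) ≤ l' := by exact_mod_cast hll
    rw [abs_sub_comm, abs_of_nonneg (by linarith)]
  by_cases hcase : l' ≤ l + 1
  · have h1 := single_le μ hZ hu0 hM2 hr0 hR hδ hδr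
    refine (measure_mono inter_subset_left).trans (h1.trans ?_)
    rw [hωt, ← ENNReal.ofReal_mul (by positivity), ← ENNReal.ofReal_mul (by linarith)]
    refine ENNReal.ofReal_le_ofReal ?_
    have h2 : 1 / 2 ≤ 1 / (1 + |(l:ℝ) - l'|) := by
      rw [hlab]
      have : (l':ℝ) ≤ l + 1 := by exact_mod_cast hcase
      have h3 : (l:ℝ) ≤ l' := by exact_mod_cast hll
      apply one_div_le_one_div_of_le <;> linarith
    calc (q₂ - q₁) * (k * (3 * δ / (1 / M ^ 2)) * ω)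
        ≤ M * (k * (3 * δ / (1 / M ^ 2)) * ω) := by gcongr
      _ = 3 * k * M ^ 2 * ω * M * δ := by
          field_simp
      _ ≤ 9 * k * M ^ 2 * ω * (1 + M + 4 * M ^ 2) ^ (Module.finrank ℝ V + 1) * δ := by
          have h39 : (3:ℝ) ≤ 9 := by norm_num
          gcongr
      _ = C3 μ M * δ * (1 / 2) := by
          unfold C3
          rw [← hk, ← hω]
          ring
      _ ≤ _ := by
          have := C3_nonneg μ hM
          gcongr
  · push Not at hcase
    have hlt : (l:ℝ) + 2 ≤ l' := by exact_mod_cast (by omega : l + 2 ≤ l')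
    have hgap : (1 + ((l':ℝ) - l)) * δ / 3 ≤ u' - u := by
      have h1 := hl.2
      have h2 := hl'.1
      nlinarith
    have hgap0 : 0 < (1 + ((l':ℝ) - l)) * δ / 3 := by
      have : 0 < 1 + ((l':ℝ) - l) := by linarith
      positivity
    have huu : u < u' := by linarith
    have hr : 0 < u * (q₁ - h) := hM2.trans_le hr0
    have h1 := pair_le μ hZ hZ' (h' := h') hu0 huu hq.le hr hδ (by linarith)
    refine h1.trans ?_
    have hA : 1 + u + 4 * u * (q₂ - q₁) / (u * (q₁ - h)) ≤ 1 + M + 4 * M ^ 2 := by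
      have h2 : 4 * u * (q₂ - q₁) / (u * (q₁ - h)) = 4 * (q₂ - q₁) / (q₁ - h) := by
        rw [show 4 * u * (q₂ - q₁) = u * (4 * (q₂ - q₁)) by ring, mul_div_mul_left _ _ hu0.ne']
      have h3 : 4 * (q₂ - q₁) / (q₁ - h) ≤ 4 * M / (1 / M) := by
        have : 0 < 1 / M := by positivity
        gcongr
        exact hh.1
      have h4 : 4 * M / (1 / M) = 4 * M ^ 2 := by field_simp
      rw [h2]
      linarith [hu.2]
    have hA0 : 0 ≤ 1 + u + 4 * u * (q₂ - q₁) / (u * (q₁ - h)) := by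
      have : 0 ≤ 4 * u * (q₂ - q₁) / (u * (q₁ - h)) := by
        apply div_nonneg _ hr.le
        have : 0 ≤ q₂ - q₁ := by linarith
        positivity
      linarith
    have hB : 2 * δ / (u' - u) ≤ 6 * (1 / (1 + |(l:ℝ) - l'|)) := by
      rw [hlab, div_le_iff₀ (by linarith)]
      have h3 : 0 < 1 + ((l':ℝ) - l) := by linarith
      calc 2 * δ = 6 * (1 / (1 + ((l':ℝ) - l))) * ((1 + ((l':ℝ) - l)) * δ / 3) := by
            field_simp
            ring
        _ ≤ _ := by gcongr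
    have hball : μ (closedBall (0 : V) (M + 2 * (u * (q₁ - h)))) ≤ ENNReal.ofReal ω := by
      rw [← hωt]
      refine measure_mono (closedBall_subset_closedBall ?_)
      have : u * (q₁ - h) ≤ u * (q₂ - h) := mul_le_mul_of_nonneg_left (by linarith) hu0.le
      linarith
    have hk3 : k * (3 * δ / (u * (q₁ - h))) ≤ k * (3 * δ * M ^ 2) := by
      have : 3 * δ / (u * (q₁ - h)) ≤ 3 * δ / (1 / M ^ 2) := by gcongr
      rw [show 3 * δ / (1 / M ^ 2) = 3 * δ * M ^ 2 by field_simp] at this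
      gcongr
    calc ENNReal.ofReal (1 + u + 4 * u * (q₂ - q₁) / (u * (q₁ - h))) ^ (Module.finrank ℝ V + 1) *
        (ENNReal.ofReal (2 * δ / (u' - u)) * (ENNReal.ofReal (k * (3 * δ / (u * (q₁ - h)))) *
          μ (closedBall 0 (M + 2 * (u * (q₁ - h))))))
        ≤ ENNReal.ofReal (1 + M + 4 * M ^ 2) ^ (Module.finrank ℝ V + 1) *
          (ENNReal.ofReal (6 * (1 / (1 + |(l:ℝ) - l'|))) *
            (ENNReal.ofReal (k * (3 * δ * M ^ 2)) * ENNReal.ofReal ω)) := by gcongr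
      _ = ENNReal.ofReal (C3 μ M * δ * (1 / (1 + |(l:ℝ) - l'|))) := by
          rw [← ENNReal.ofReal_pow (by linarith), ← ENNReal.ofReal_mul (by positivity),
            ← ENNReal.ofReal_mul (by positivity), ← ENNReal.ofReal_mul (by positivity)]
          congr 1
          unfold C3
          rw [← hk, ← hω]
          ring

/-- the `L²` inequality at one scale. -/
theorem one_scale {M q₁ q₂ δ : ℝ} (hM : 1 ≤ M) (hq : q₁ < q₂) (hδ : 0 < δ)
    (hδM : δ ≤ 1 / (2 * M ^ 2)) {U : Set ℝ} {Z : ℝ → Set V} {h : ℝ → ℝ}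
    (hu : ∀ u ∈ U, 1 / M ≤ u ∧ u ≤ M) (hh : ∀ u ∈ U, 1 / M ≤ q₁ - h u ∧ q₂ - h u ≤ M)
    (hZ : ∀ u ∈ U, Body M (Z u)) {Q : Set (V × ℝ)} (hQ : MeasurableSet Q) {c : ℝ} (hc : 0 < c)
    (hlow : ∀ u ∈ U, ENNReal.ofReal (c * δ) ≤
      (μ.prod volume) (front q₁ q₂ δ (Z u) u (h u) ∩ Q)) :
    ENNReal.ofReal (c ^ 2) * volume U ≤
      ENNReal.ofReal (C3 μ M * (2 * (1 + Real.log (M / δ + 1)))) * (μ.prod volume) Q := by
  classical
  have hM0 : 0 < M := by linarith
  obtain ⟨L, p, hp, hLX, hvol⟩ := cells hδ (U := U) (M := M)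
    (fun u hu' => ⟨(one_div_pos.2 hM0).le.trans (hu u hu').1, (hu u hu').2⟩)
  set ν := μ.prod (volume : Measure ℝ) with hν
  set F : ℕ → Set (V × ℝ) := fun l => front q₁ q₂ δ (Z (p l)) (p l) (h (p l)) with hF
  have hFm : ∀ l, MeasurableSet (F l) := fun l => (isClosed_front _ _ _ _ _ _).measurableSet
  have hX1 : ((⌊M / δ⌋₊ + 1 : ℕ) : ℝ) ≤ M / δ + 1 := by
    push_cast
    have := Nat.floor_le (show 0 ≤ M / δ by positivity)
    linarith
  have hlog : Real.log ((⌊M / δ⌋₊ + 1 : ℕ) : ℝ) ≤ Real.log (M / δ + 1) :=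
    Real.log_le_log (by positivity) hX1
  have hlog0 : 0 ≤ Real.log (M / δ + 1) := Real.log_nonneg (by
    have : 0 ≤ M / δ := by positivity
    linarith)
  have hC := C3_nonneg μ hM
  have hcs := cs_sets ν L F (fun l _ => hFm l) hQ
  have hlow' : ENNReal.ofReal (L.card * (c * δ)) ≤ ∑ l ∈ L, ν (F l ∩ Q) := by
    rw [ENNReal.ofReal_mul (Nat.cast_nonneg _), ENNReal.ofReal_natCast, ← nsmul_eq_mul]
    exact Finset.card_nsmul_le_sum _ _ _ (fun l hl => hlow (p l) (hp l hl).1)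
  have hup : ∑ l ∈ L, ∑ l' ∈ L, ν (F l ∩ F l') ≤
      ENNReal.ofReal (L.card * (C3 μ M * δ * (2 * (1 + Real.log (M / δ + 1))))) := by
    calc ∑ l ∈ L, ∑ l' ∈ L, ν (F l ∩ F l')
        ≤ ∑ l ∈ L, ∑ l' ∈ L, ENNReal.ofReal (C3 μ M * δ * (1 / (1 + |(l:ℝ) - l'|))) := by
          refine Finset.sum_le_sum fun l hl => Finset.sum_le_sum fun l' hl' => ?_
          obtain ⟨h1, h2, h3⟩ := hp l hl
          obtain ⟨h1', h2', h3'⟩ := hp l' hl'
          exact pair_unif μ hM hq hδ hδM (hZ _ h1) (hZ _ h1') (hu _ h1) (hu _ h1') (hh _ h1)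
            (hh _ h1') ⟨h2, h3⟩ ⟨h2', h3'⟩
      _ = ∑ l ∈ L, ENNReal.ofReal (C3 μ M * δ * ∑ l' ∈ L, (1 / (1 + |(l:ℝ) - l'|))) := by
          refine Finset.sum_congr rfl fun l _ => ?_
          rw [Finset.mul_sum, ENNReal.ofReal_sum_of_nonneg]
          intro l' _
          positivity
      _ ≤ ∑ l ∈ L, ENNReal.ofReal (C3 μ M * δ * (2 * (1 + Real.log (M / δ + 1)))) := by
          refine Finset.sum_le_sum fun l hl => ENNReal.ofReal_le_ofReal ?_
          have h4 := dist_sum_le _ l (Finset.mem_range.1 (hLX hl)) L hLX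
          have : ∑ l' ∈ L, (1 / (1 + |(l:ℝ) - l'|)) ≤ 2 * (1 + Real.log (M / δ + 1)) :=
            h4.trans (by gcongr)
          gcongr
      _ = _ := by
          rw [Finset.sum_const, nsmul_eq_mul, ENNReal.ofReal_mul (Nat.cast_nonneg _),
            ENNReal.ofReal_natCast]
  -- combine
  have key : ENNReal.ofReal (L.card * (c * δ)) ^ 2 ≤
      ν Q * ENNReal.ofReal (L.card * (C3 μ M * δ * (2 * (1 + Real.log (M / δ + 1))))) :=
    calc _ ≤ (∑ l ∈ L, ν (F l ∩ Q)) ^ 2 := by gcongr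
      _ ≤ _ := hcs
      _ ≤ _ := by gcongr
  by_cases hL0 : L.card = 0
  · have : volume U = 0 := by
      rw [hL0] at hvol
      simpa using hvol
    rw [this, mul_zero]
    exact zero_le
  have hLpos : 0 < (L.card : ℝ) := by exact_mod_cast Nat.pos_of_ne_zero hL0
  have hLδ : 0 < (L.card : ℝ) * δ := by positivity
  have e1 : ENNReal.ofReal (L.card * (c * δ)) ^ 2 =
      ENNReal.ofReal (L.card * δ) * (ENNReal.ofReal (c ^ 2) * ENNReal.ofReal (L.card * δ)) := by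
    rw [← ENNReal.ofReal_pow (by positivity), ← ENNReal.ofReal_mul (by positivity),
      ← ENNReal.ofReal_mul (by positivity)]
    congr 1
    ring
  have e2 : ν Q * ENNReal.ofReal (L.card * (C3 μ M * δ * (2 * (1 + Real.log (M / δ + 1))))) =
      ENNReal.ofReal (L.card * δ) *
        (ENNReal.ofReal (C3 μ M * (2 * (1 + Real.log (M / δ + 1)))) * ν Q) := by
    rw [show (L.card : ℝ) * (C3 μ M * δ * (2 * (1 + Real.log (M / δ + 1)))) =
      (L.card * δ) * (C3 μ M * (2 * (1 + Real.log (M / δ + 1)))) by ring,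
      ENNReal.ofReal_mul hLδ.le]
    ring
  rw [e1, e2] at key
  have hne : ENNReal.ofReal (L.card * δ) ≠ 0 := by
    rw [Ne, ENNReal.ofReal_eq_zero, not_le]; exact hLδ
  have key2 := (ENNReal.mul_le_mul_iff_right hne ENNReal.ofReal_ne_top).1 key
  refine le_trans ?_ key2
  gcongr

end Pool.Agent.H65.EF
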